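import Mathlib
import Pool.Agent.X21.Ce.A1

/-!
# A criterion for total orthogonality
-/

set_option autoImplicit false
set_option linter.unusedSectionVars false

namespace Pool.Agent.X21.Ce

open Pool.Agent.H541R3.ART Pool.Agent.Helper884 Pool.Agent.X21.Sy

section one

variable {G : Type} [Group G] [Finite G]

/-- expansion of a class function -/
lemma expand' [Fintype G] (f : G → ℂ) (hf : ∀ g y : G, f (y * g * y⁻¹) = f g) (x : G) :
    f x = ∑ χ ∈ irrF G, ((Nat.card G : ℂ)⁻¹ * ∑ g : G, f g * χ g⁻¹) * χ x := by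
  classical
  have h := congrFun (IC.expand f hf) x
  rw [h]
  simp only [Finset.sum_apply, Pi.smul_apply, smul_eq_mul]
  have h1 : IC.Irr G = irrF G := by
    ext χ
    rw [IC.mem_Irr, mem_irrF, mem_iff_ic]
  rw [h1]
  rfl

/-- column orthogonality -/
lemma col_orth [Fintype G] [DecidableEq G] (h : G) :
    ((Finset.univ.filter fun g : G => g * h * g⁻¹ = h).card : ℂ) = ∑ χ ∈ irrF G, χ h * χ h⁻¹ := by
  set f : G → ℂ := fun x => ((Finset.univ.filter fun g : G => g * x * g⁻¹ = h).card : ℂ) with hf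
  have hcl : ∀ g y : G, f (y * g * y⁻¹) = f g := by
    intro g y
    simp only [hf]
    congr 1
    refine Finset.card_bij' (fun z _ => z * y) (fun z _ => z * y⁻¹) ?_ ?_ ?_ ?_
    · intro z hz
      rw [Finset.mem_filter] at hz ⊢
      refine ⟨Finset.mem_univ _, ?_⟩
      rw [← hz.2]; group
    · intro z hz
      rw [Finset.mem_filter] at hz ⊢
      refine ⟨Finset.mem_univ _, ?_⟩
      rw [← hz.2]; group
    · intro z _; group
    · intro z _; group
  have h1 := expand' f hcl h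
  have h2 : ∀ χ ∈ irrF G, (Nat.card G : ℂ)⁻¹ * ∑ g : G, f g * χ g⁻¹ = χ h⁻¹ := by
    intro χ hχ
    have hχ' := mem_irrF.mp hχ
    have h3 : ∀ x : G, f x * χ x⁻¹ = ∑ g : G, if g * x * g⁻¹ = h then χ x⁻¹ else 0 := by
      intro x
      rw [← Finset.sum_filter, Finset.sum_const, nsmul_eq_mul]
    rw [Finset.sum_congr rfl fun x _ => h3 x, Finset.sum_comm]
    have h4 : ∀ g : G, (∑ x : G, if g * x * g⁻¹ = h then χ x⁻¹ else 0) = χ h⁻¹ := by
      intro g
      rw [Finset.sum_eq_single (g⁻¹ * h * g)]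
      · rw [if_pos (by group)]
        have := Irr.conj hχ' h⁻¹ g⁻¹
        rw [← this]
        congr 1
        group
      · intro x _ hx
        rw [if_neg]
        intro h5
        apply hx
        rw [← h5]; group
      · intro hx; exact absurd (Finset.mem_univ _) hx
    rw [Finset.sum_congr rfl fun g _ => h4 g, Finset.sum_const, Finset.card_univ, nsmul_eq_mul,
      ← Nat.card_eq_fintype_card, ← mul_assoc, inv_mul_cancel₀ cG, one_mul]
  have h5 : f h = ∑ χ ∈ irrF G, χ h⁻¹ * χ h := by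
    rw [h1]
    exact Finset.sum_congr rfl fun χ hχ => by rw [h2 χ hχ]
  have h6 : f h = ((Finset.univ.filter fun g : G => g * h * g⁻¹ = h).card : ℂ) := rfl
  rw [← h6, h5]
  exact Finset.sum_congr rfl fun χ _ => mul_comm _ _

/-- number of square roots -/
lemma roots [Fintype G] [DecidableEq G] (x : G) :
    ((Finset.univ.filter fun k : G => k * k = x).card : ℂ) = ∑ χ ∈ irrF G, nu χ * χ x := by
  set f : G → ℂ := fun x => ((Finset.univ.filter fun k : G => k * k = x).card : ℂ) with hf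
  have hcl : ∀ g y : G, f (y * g * y⁻¹) = f g := by
    intro g y
    simp only [hf]
    congr 1
    refine Finset.card_bij' (fun z _ => y⁻¹ * z * y) (fun z _ => y * z * y⁻¹) ?_ ?_ ?_ ?_
    · intro z hz
      rw [Finset.mem_filter] at hz ⊢
      refine ⟨Finset.mem_univ _, ?_⟩
      have : y⁻¹ * z * y * (y⁻¹ * z * y) = y⁻¹ * (z * z) * y := by group
      rw [this, hz.2]; group
    · intro z hz
      rw [Finset.mem_filter] at hz ⊢
      refine ⟨Finset.mem_univ _, ?_⟩
      rw [← hz.2]; group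
    · intro z _; group
    · intro z _; group
  have h1 := expand' f hcl x
  have h6 : f x = ((Finset.univ.filter fun k : G => k * k = x).card : ℂ) := rfl
  rw [← h6, h1]
  refine Finset.sum_congr rfl fun χ hχ => ?_
  congr 1
  unfold nu
  congr 1
  rw [finsum_eq_sum_of_fintype]
  have h3 : ∀ y : G, f y * χ y⁻¹ = ∑ k : G, if k * k = y then χ y⁻¹ else 0 := by
    intro y
    rw [← Finset.sum_filter, Finset.sum_const, nsmul_eq_mul]
  rw [Finset.sum_congr rfl fun y _ => h3 y, Finset.sum_comm]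
  have h4 : ∀ k : G, (∑ y : G, if k * k = y then χ y⁻¹ else 0) = χ (k⁻¹ * k⁻¹) := by
    intro k
    rw [Finset.sum_ite_eq]
    simp
  rw [Finset.sum_congr rfl fun k _ => h4 k]
  exact Fintype.sum_equiv (Equiv.inv G) _ _ fun k => rfl

end one

section two

variable {G H : Type} [Group G] [Finite G] [Group H] [Finite H] (j : H →* G)

/-- restrictions have natural multiplicities -/
lemma res_mult [Fintype H] {χ : G → ℂ} (hχ : χ ∈ Irr G) {ψ : H → ℂ} (hψ : ψ ∈ Irr H) :
    ∃ m : ℕ, (Nat.card H : ℂ)⁻¹ * ∑ h : H, χ (j h) * ψ h⁻¹ = m := by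
  classical
  obtain ⟨n, ρ, hρ, rfl⟩ := hχ
  obtain ⟨n', σ, hσ, rfl⟩ := hψ
  have : Invertible (Nat.card H : ℂ) := invertibleOfNonzero cG
  let ρH : Representation ℂ H (Fin n → ℂ) := ρ.comp j
  have h1 := Representation.card_inv_mul_sum_char_mul_char_eq_finrank (G := H) σ ρH
  refine ⟨Module.finrank ℂ (Representation.IntertwiningMap σ ρH), ?_⟩
  rw [← h1]
  rfl

/-- the multiplicity -/
noncomputable def mu (χ : G → ℂ) (ψ : H → ℂ) : ℂ :=
  (Nat.card H : ℂ)⁻¹ * ∑ᶠ h : H, χ (j h) * ψ h⁻¹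

lemma res_expand {χ : G → ℂ} (hχ : χ ∈ Irr G) (h : H) :
    χ (j h) = ∑ ψ ∈ irrF H, mu j χ ψ * ψ h := by
  classical
  have : Fintype H := Fintype.ofFinite H
  have h1 := expand' (fun h : H => χ (j h)) (fun g y => by
    simp only [map_mul, map_inv]
    exact Irr.conj hχ _ _) h
  rw [h1]
  refine Finset.sum_congr rfl fun ψ _ => ?_
  unfold mu
  rw [finsum_eq_sum_of_fintype]

/-- the sum of the squares of the multiplicities -/
lemma sum_sq [Fintype G] [DecidableEq G] [Fintype H] :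
    (Nat.card H : ℂ)⁻¹ * ∑ h : H, ((Finset.univ.filter fun g : G => g * j h * g⁻¹ = j h).card : ℂ)
      = ∑ χ ∈ irrF G, ∑ ψ ∈ irrF H, mu j χ ψ * mu j χ ψ := by
  classical
  have h1 : ∀ h : H, ((Finset.univ.filter fun g : G => g * j h * g⁻¹ = j h).card : ℂ)
      = ∑ χ ∈ irrF G, χ (j h) * χ (j h)⁻¹ := fun h => col_orth (j h)
  rw [Finset.sum_congr rfl fun h _ => h1 h, Finset.sum_comm, Finset.mul_sum]
  refine Finset.sum_congr rfl fun χ hχ => ?_
  have hχ' := mem_irrF.mp hχ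
  have h2 : ∀ h : H, χ (j h) * χ (j h)⁻¹ = ∑ ψ ∈ irrF H, mu j χ ψ * (ψ h * χ (j h⁻¹)) := by
    intro h
    conv_lhs => rw [res_expand j hχ' h]
    rw [Finset.sum_mul, map_inv]
    exact Finset.sum_congr rfl fun ψ _ => by ring
  rw [Finset.sum_congr rfl fun h _ => h2 h, Finset.sum_comm, Finset.mul_sum]
  refine Finset.sum_congr rfl fun ψ _ => ?_
  rw [← Finset.mul_sum, mul_left_comm]
  congr 1
  unfold mu
  congr 1
  rw [finsum_eq_sum_of_fintype]
  refine Fintype.sum_equiv (Equiv.inv H) _ _ fun h => ?_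
  simp [mul_comm]

/-- the twisted sum -/
lemma sum_tw [Fintype G] [DecidableEq G] [Fintype H] :
    (Nat.card H : ℂ)⁻¹ * ∑ h : H,
      ((Finset.univ.filter fun k : G => k * k = j h * j h).card : ℂ)
      = ∑ χ ∈ irrF G, ∑ ψ ∈ irrF H, nu χ * nu ψ * mu j χ ψ := by
  classical
  have h1 : ∀ h : H, ((Finset.univ.filter fun k : G => k * k = j h * j h).card : ℂ)
      = ∑ χ ∈ irrF G, nu χ * χ (j (h * h)) := by
    intro h
    rw [map_mul]
    exact roots (j h * j h)
  rw [Finset.sum_congr rfl fun h _ => h1 h, Finset.sum_comm, Finset.mul_sum]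
  refine Finset.sum_congr rfl fun χ hχ => ?_
  have hχ' := mem_irrF.mp hχ
  have h2 : ∀ h : H, nu χ * χ (j (h * h)) = ∑ ψ ∈ irrF H, nu χ * mu j χ ψ * ψ (h * h) := by
    intro h
    rw [res_expand j hχ' (h * h), Finset.mul_sum]
    exact Finset.sum_congr rfl fun ψ _ => by ring
  rw [Finset.sum_congr rfl fun h _ => h2 h, Finset.sum_comm, Finset.mul_sum]
  refine Finset.sum_congr rfl fun ψ _ => ?_
  rw [← Finset.mul_sum]
  have h3 : nu ψ = (Nat.card H : ℂ)⁻¹ * ∑ h : H, ψ (h * h) := by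
    unfold nu; rw [finsum_eq_sum_of_fintype]
  rw [h3]
  ring

/-- the two counts agree if every element of `G` is inverted by an element of the image of `H` -/
lemma count_eq [Fintype G] [DecidableEq G] [Fintype H]
    (hinv : ∀ g : G, ∃ h : H, j h * g * (j h)⁻¹ = g⁻¹) :
    ∑ h : H, (Finset.univ.filter fun g : G => g * j h * g⁻¹ = j h).card
      = ∑ h : H, (Finset.univ.filter fun k : G => k * k = j h * j h).card := by
  classical
  -- pairs `(h, g)`
  have h1 : ∀ h : H, (Finset.univ.filter fun k : G => k * k = j h * j h).card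
      = (Finset.univ.filter fun g : G => j h * g * (j h)⁻¹ = g⁻¹).card := by
    intro h
    refine Finset.card_bij' (fun k _ => (j h)⁻¹ * k) (fun g _ => j h * g) ?_ ?_ ?_ ?_
    · intro k hk
      rw [Finset.mem_filter] at hk ⊢
      refine ⟨Finset.mem_univ _, ?_⟩
      rw [eq_inv_iff_mul_eq_one]
      calc j h * ((j h)⁻¹ * k) * (j h)⁻¹ * ((j h)⁻¹ * k)
          = k * ((j h * j h)⁻¹) * k := by group
        _ = k * ((k * k)⁻¹) * k := by rw [hk.2]
        _ = 1 := by group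
    · intro g hg
      rw [Finset.mem_filter] at hg ⊢
      refine ⟨Finset.mem_univ _, ?_⟩
      have h2 := congrArg (fun x => x⁻¹) hg.2
      simp only [mul_inv_rev, inv_inv] at h2
      have h3 : g * j h = j h * g⁻¹ := by
        conv_lhs => rw [← h2]
        group
      calc j h * g * (j h * g) = j h * (g * j h) * g := by group
        _ = j h * j h := by rw [h3]; group
    · intro k _; group
    · intro g _; group
  rw [Finset.sum_congr rfl fun h _ => h1 h]
  simp only [Finset.card_filter]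
  rw [Finset.sum_comm, Finset.sum_comm (s := (Finset.univ : Finset H))]
  refine Finset.sum_congr rfl fun g _ => ?_
  obtain ⟨h0, hh0⟩ := hinv g
  rw [← Finset.card_filter, ← Finset.card_filter]
  refine Finset.card_bij' (fun h _ => h0 * h) (fun h _ => h0⁻¹ * h) ?_ ?_ ?_ ?_
  · intro h hh
    rw [Finset.mem_filter] at hh ⊢
    refine ⟨Finset.mem_univ _, ?_⟩
    have h4 : j h * g * (j h)⁻¹ = g := by
      have h5 := hh.2
      have h6 : g * j h = j h * g := by
        rw [mul_inv_eq_iff_eq_mul] at h5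
        exact h5
      rw [← h6]; group
    calc j (h0 * h) * g * (j (h0 * h))⁻¹ = j h0 * (j h * g * (j h)⁻¹) * (j h0)⁻¹ := by
          rw [map_mul]; group
      _ = g⁻¹ := by rw [h4, hh0]
  · intro h hh
    rw [Finset.mem_filter] at hh ⊢
    refine ⟨Finset.mem_univ _, ?_⟩
    have h4 : j (h0⁻¹ * h) * g * (j (h0⁻¹ * h))⁻¹ = g := by
      calc j (h0⁻¹ * h) * g * (j (h0⁻¹ * h))⁻¹
          = (j h0)⁻¹ * (j h * g * (j h)⁻¹) * j h0 := by rw [map_mul, map_inv]; group
        _ = (j h0)⁻¹ * g⁻¹ * j h0 := by rw [hh.2]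
        _ = (j h0)⁻¹ * (j h0 * g * (j h0)⁻¹) * j h0 := by rw [hh0]
        _ = g := by group
    rw [mul_inv_eq_iff_eq_mul] at h4
    rw [mul_inv_eq_iff_eq_mul, h4]
  · intro h _; group
  · intro h _; group

/-- **Criterion.** If every element of `G` is inverted by conjugation with an element of the image
of `H` and `H` is totally orthogonal then so is `G`. -/
theorem totOrth_step (hinv : ∀ g : G, ∃ h : H, j h * g * (j h)⁻¹ = g⁻¹) (hH : TotOrth H) :
    TotOrth G := by
  classical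
  have : Fintype G := Fintype.ofFinite G
  have : Fintype H := Fintype.ofFinite H
  have hreal : ∀ χ ∈ Irr G, ∀ g, χ g⁻¹ = χ g := by
    intro χ hχ g
    obtain ⟨h, hh⟩ := hinv g
    rw [← hh]
    exact Irr.conj hχ g (j h)
  have h1 := sum_sq j
  have h2 := sum_tw j
  have h3 : ∑ h : H, ((Finset.univ.filter fun g : G => g * j h * g⁻¹ = j h).card : ℂ)
      = ∑ h : H, ((Finset.univ.filter fun k : G => k * k = j h * j h).card : ℂ) := by
    exact_mod_cast count_eq j hinv
  rw [h3, h2] at h1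
  -- integers
  have hm : ∀ χ : G → ℂ, ∀ ψ : H → ℂ, χ ∈ irrF G → ψ ∈ irrF H → ∃ m : ℕ, mu j χ ψ = m := by
    intro χ ψ hχ hψ
    obtain ⟨m, hm⟩ := res_mult j (mem_irrF.mp hχ) (mem_irrF.mp hψ)
    refine ⟨m, ?_⟩
    unfold mu
    rw [finsum_eq_sum_of_fintype, hm]
  choose! m hm using hm
  have hn : ∀ χ : G → ℂ, χ ∈ irrF G → ∃ e : ℤ, nu χ = e ∧ (e = 1 ∨ e = -1) := by
    intro χ hχ
    rcases nu_real (mem_irrF.mp hχ) (hreal χ (mem_irrF.mp hχ)) with h | h
    · exact ⟨1, by rw [h]; norm_num, Or.inl rfl⟩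
    · exact ⟨-1, by rw [h]; norm_num, Or.inr rfl⟩
  choose! e he using hn
  have h4 : ∑ χ ∈ irrF G, ∑ ψ ∈ irrF H, ((m χ ψ : ℤ) * m χ ψ - e χ * m χ ψ) = 0 := by
    have h5 : ((∑ χ ∈ irrF G, ∑ ψ ∈ irrF H, ((m χ ψ : ℤ) * m χ ψ - e χ * m χ ψ) : ℤ) : ℂ) = 0 := by
      push_cast
      simp only [Finset.sum_sub_distrib]
      rw [sub_eq_zero]
      have h6 : ∑ χ ∈ irrF G, ∑ ψ ∈ irrF H, (m χ ψ : ℂ) * m χ ψ
          = ∑ χ ∈ irrF G, ∑ ψ ∈ irrF H, mu j χ ψ * mu j χ ψ :=
        Finset.sum_congr rfl fun χ hχ => Finset.sum_congr rfl fun ψ hψ => by rw [hm χ ψ hχ hψ]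
      have h7 : ∑ χ ∈ irrF G, ∑ ψ ∈ irrF H, (e χ : ℂ) * m χ ψ
          = ∑ χ ∈ irrF G, ∑ ψ ∈ irrF H, nu χ * nu ψ * mu j χ ψ :=
        Finset.sum_congr rfl fun χ hχ => Finset.sum_congr rfl fun ψ hψ => by
          rw [hm χ ψ hχ hψ, hH ψ (mem_irrF.mp hψ), mul_one, (he χ hχ).1]
      rw [h6, h7, ← h1]
    exact_mod_cast h5
  have hnn : ∀ χ ∈ irrF G, ∀ ψ ∈ irrF H, 0 ≤ ((m χ ψ : ℤ) * m χ ψ - e χ * m χ ψ) := by
    intro χ hχ ψ _
    rcases (he χ hχ).2 with h | h
    · rw [h]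
      rcases Nat.eq_zero_or_pos (m χ ψ) with h0 | h0
      · rw [h0]; norm_num
      · have : (1 : ℤ) ≤ m χ ψ := by exact_mod_cast h0
        nlinarith
    · rw [h]
      have : (0 : ℤ) ≤ m χ ψ := Int.natCast_nonneg _
      nlinarith
  intro χ hχ
  have hχF := mem_irrF.mpr hχ
  have h8 : ∀ ψ ∈ irrF H, ((m χ ψ : ℤ) * m χ ψ - e χ * m χ ψ) = 0 := by
    have h9 := (Finset.sum_eq_zero_iff_of_nonneg
      (fun χ hχ => Finset.sum_nonneg (hnn χ hχ))).mp h4 χ hχF
    exact (Finset.sum_eq_zero_iff_of_nonneg (hnn χ hχF)).mp h9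
  rcases (he χ hχF).2 with h | h
  · rw [(he χ hχF).1, h]; norm_num
  · exfalso
    have h10 : ∀ ψ ∈ irrF H, mu j χ ψ = 0 := by
      intro ψ hψ
      have h11 := h8 ψ hψ
      rw [h] at h11
      have h12 : (0 : ℤ) ≤ m χ ψ := Int.natCast_nonneg _
      have h13 : (m χ ψ : ℤ) = 0 := by nlinarith
      rw [hm χ ψ hχF hψ]
      exact_mod_cast h13
    have h14 : χ (j 1) = 0 := by
      rw [res_expand j hχ 1]
      exact Finset.sum_eq_zero fun ψ hψ => by rw [h10 ψ hψ, zero_mul]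
    rw [map_one] at h14
    obtain ⟨n, ρ, hρ, rfl⟩ := hχ
    rw [Representation.char_one] at h14
    have h15 : Module.finrank ℂ (Fin n → ℂ) = 0 := by exact_mod_cast h14
    rw [Module.finrank_fin_fun] at h15
    subst h15
    have := ((Pool.Agent.W446.AS.irred_iff ρ).mpr hρ).1
    exact not_subsingleton (Fin 0 → ℂ) inferInstance

end two

end Pool.Agent.X21.Ce
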