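import Mathlib
import Pool.Agent.X21.Ce.A2

/-!
# Symmetric groups are totally orthogonal
-/

set_option autoImplicit false
set_option linter.unusedSectionVars false

namespace Pool.Agent.X21.Ce

open Pool.Agent.H541R3.ART Pool.Agent.Helper884 Pool.Agent.X21.Sy Equiv Equiv.Perm

/-- every permutation is inverted by a permutation fixing a given point -/
lemma exists_inverter {β : Type} (σ : Perm β) (b : β) :
    ∃ τ : Perm β, τ b = b ∧ τ * σ * τ⁻¹ = σ⁻¹ := by
  classical
  let S : Setoid β := SameCycle.setoid σ
  let rep : β → β := fun x => if SameCycle σ b x then b else (Quotient.mk S x).out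
  have hrep : ∀ x, SameCycle σ (rep x) x := by
    intro x
    simp only [rep]
    split_ifs with h
    · exact h
    · exact Quotient.exact (s := S) (Quotient.out_eq (Quotient.mk S x))
  have hrep2 : ∀ x y, SameCycle σ x y → rep x = rep y := by
    intro x y hxy
    simp only [rep]
    have h1 : SameCycle σ b x ↔ SameCycle σ b y := ⟨fun h => h.trans hxy, fun h => h.trans hxy.symm⟩
    have h2 : Quotient.mk S x = Quotient.mk S y := Quotient.sound hxy
    rw [h2]
    split_ifs with h3 h4 h4
    · rfl
    · exact absurd (h1.mp h3) h4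
    · exact absurd (h1.mpr h4) h3
    · rfl
  choose k hk using hrep
  let f : β → β := fun x => (σ ^ (-k x)) (rep x)
  have key : ∀ (x : β) (z : ℤ), f ((σ ^ z) (rep x)) = (σ ^ (-z)) (rep x) := by
    intro x z
    have h1 : rep ((σ ^ z) (rep x)) = rep x := by
      have h2 : SameCycle σ (rep x) ((σ ^ z) (rep x)) := ⟨z, rfl⟩
      rw [← hrep2 _ _ h2]
      have h3 : SameCycle σ (rep x) x := ⟨k x, hk x⟩
      exact hrep2 _ _ h3
    set y := (σ ^ z) (rep x) with hy
    have h4 := hk y
    rw [h1] at h4
    change (σ ^ (-k y)) (rep y) = _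
    rw [h1]
    -- `σ ^ k y` and `σ ^ z` agree at `rep x`
    have h5 : (σ ^ (k y)) (rep x) = (σ ^ z) (rep x) := by rw [h4]
    have h6 : (σ ^ (-k y - z)) ((σ ^ (k y)) (rep x)) = (σ ^ (-k y - z)) ((σ ^ z) (rep x)) := by
      rw [h5]
    rw [← Perm.mul_apply, ← Perm.mul_apply, ← zpow_add, ← zpow_add] at h6
    have e1 : -k y - z + k y = -z := by ring
    have e2 : -k y - z + z = -k y := by ring
    rw [e1, e2] at h6
    exact h6.symm
  have hx : ∀ x, x = (σ ^ k x) (rep x) := fun x => (hk x).symm
  have hinv : Function.Involutive f := by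
    intro x
    have h1 : f x = (σ ^ (-k x)) (rep x) := rfl
    rw [h1, key x (-k x), neg_neg]
    exact hk x
  have hσ : ∀ x, f (σ x) = σ⁻¹ (f x) := by
    intro x
    have h1 : σ x = (σ ^ (k x + 1)) (rep x) := by
      conv_lhs => rw [hx x]
      rw [zpow_add, zpow_one, ← Perm.mul_apply, ((Commute.refl σ).zpow_right _).eq]
    rw [h1, key x (k x + 1)]
    change _ = σ⁻¹ ((σ ^ (-k x)) (rep x))
    rw [← Perm.mul_apply]
    congr 1
    rw [← zpow_neg_one, ← zpow_add]
    congr 1
    ring
  have hb : rep b = b := by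
    simp only [rep, if_pos (SameCycle.refl σ b)]
  refine ⟨hinv.toPerm f, ?_, ?_⟩
  · change f b = b
    have h1 := key b 0
    rw [hb] at h1
    simpa using h1
  · rw [mul_inv_eq_iff_eq_mul]
    ext x
    rw [Perm.mul_apply, Perm.mul_apply]
    exact hσ x

lemma totOrth_unique {G : Type} [Group G] [Unique G] : TotOrth G := by
  intro χ hχ
  have h1 := nu_real (G := G) hχ (fun g => by rw [Subsingleton.elim g⁻¹ g])
  rcases h1 with h | h
  · exact h
  · exfalso
    obtain ⟨n, ρ, hρ, rfl⟩ := hχ
    unfold nu at h
    rw [finsum_unique, Nat.card_unique] at h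
    have h2 : ρ.character ((default : G) * default) = ρ.character 1 :=
      congrArg _ (Subsingleton.elim _ _)
    rw [h2, Representation.char_one] at h
    have h3 := congrArg Complex.re h
    simp at h3
    have h4 : (0 : ℝ) ≤ n := Nat.cast_nonneg n
    linarith

/-- symmetric groups are totally orthogonal -/
theorem totOrth_fin (n : ℕ) : TotOrth (Perm (Fin n)) := by
  induction n with
  | zero => exact totOrth_unique
  | succ n ih =>
    refine totOrth_step (extendDomainHom (finSuccAboveEquiv (0 : Fin (n + 1)))) ?_ ih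
    intro σ
    obtain ⟨τ, h1, h2⟩ := exists_inverter σ 0
    have h3 : ∀ x : Fin (n + 1), τ x ≠ 0 ↔ x ≠ 0 := by
      intro x
      rw [not_iff_not]
      constructor
      · intro h
        exact τ.injective (h.trans h1.symm)
      · rintro rfl; exact h1
    let e := finSuccAboveEquiv (0 : Fin (n + 1))
    refine ⟨e.symm.permCongr (τ.subtypePerm h3), ?_⟩
    have h4 : extendDomainHom e (e.symm.permCongr (τ.subtypePerm h3)) = τ := by
      ext x
      by_cases hx : x = 0
      · subst hx
        rw [extendDomainHom_apply,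
          extendDomain_apply_not_subtype (p := fun x : Fin (n + 1) => x ≠ 0) _ _ (by simp), h1]
      · rw [extendDomainHom_apply,
          extendDomain_apply_subtype (p := fun x : Fin (n + 1) => x ≠ 0) _ _ hx]
        simp [permCongr_apply]
    change extendDomainHom e _ * σ * (extendDomainHom e _)⁻¹ = σ⁻¹
    rw [h4, h2]

lemma TotOrth.congr {G H : Type} [Group G] [Finite G] [Group H] [Finite H] (e : G ≃* H)
    (hG : TotOrth G) : TotOrth H := by
  intro χ hχ
  have h1 := Pool.Agent.W446.AS.infl_irr (π := e.toMonoidHom) e.surjective hχ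
  have h2 := hG _ h1
  rw [← h2]
  unfold nu
  congr 1
  · rw [Nat.card_congr e.toEquiv]
  · rw [← finsum_comp_equiv e.toEquiv]
    refine finsum_congr fun g => ?_
    change χ (e g * e g) = χ (e (g * g))
    rw [map_mul]

theorem totOrth_perm (α : Type) [Finite α] : TotOrth (Perm α) := by
  obtain ⟨n, ⟨e⟩⟩ := Finite.exists_equiv_fin α
  exact (totOrth_fin n).congr e.symm.permCongrHom

end Pool.Agent.X21.Ce
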