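import Mathlib
import Pool.Agent.X21.Ce.A3

/-!
# Functional equations at the central point and the halved Heilbronn function
-/

set_option autoImplicit false
set_option linter.unusedSectionVars false

namespace Pool.Agent.X21.Ce

open Pool.Agent.H302R2 Pool.Agent.H541R3.ART Pool.Agent.W446.AS Pool.Agent.X21.Sy Filter Topology

/-- Functions with the formal properties of the Artin L-functions of a Galois extension `E/K` of
number fields with group `G` near the central point `1/2`: the properties in `ArtinData`, and for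
every intermediate field `F = E^H` and every orthogonal irreducible character `φ` of `H` the
functional equation, with root number `1`, of the L-function `L(s, φ, E/F)`, which is
`∏ L(s, χ) ^ ⟨χ|_H, φ⟩` by the induction property. -/
structure CentralData (G : Type) [Group G] extends ArtinData G (1 / 2 : ℂ) where
  feq : ∀ (H : Subgroup G) (φ : H → ℂ), φ ∈ Irr H → nu φ = 1 → ∀ m : (G → ℂ) → ℕ,
    (∀ χ ∈ Irr G, ∑ᶠ h : H, χ h * φ h⁻¹ = (m χ : ℂ) * (Nat.card H : ℂ)) →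
    ∃ γ : ℂ → ℂ, AnalyticAt ℂ γ (1 / 2) ∧ γ (1 / 2) ≠ 0 ∧ ∀ᶠ s in 𝓝[≠] (1 / 2 : ℂ),
      γ s * ∏ᶠ χ ∈ Irr G, L χ s ^ m χ = γ (1 - s) * ∏ᶠ χ ∈ Irr G, L χ (1 - s) ^ m χ

lemma tendsto_refl : Tendsto (fun s : ℂ => 1 - s) (𝓝[≠] (1 / 2 : ℂ)) (𝓝[≠] (1 / 2 : ℂ)) := by
  rw [tendsto_nhdsWithin_iff]
  constructor
  · have h1 : ContinuousAt (fun s : ℂ => 1 - s) (1 / 2) := by fun_prop
    have h2 : (1 : ℂ) - 1 / 2 = 1 / 2 := by norm_num
    have h3 := h1.tendsto
    rw [h2] at h3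
    exact h3.mono_left nhdsWithin_le_nhds
  · filter_upwards [self_mem_nhdsWithin] with s hs
    intro h
    apply hs
    have h4 : (1 : ℂ) - s = 1 / 2 := h
    have : s = 1 - 1 / 2 := by rw [← h4]; ring
    rw [this]
    norm_num

/-- the sign of a functional equation -/
lemma sign_of_feq {f γ : ℂ → ℂ} {k : ℤ} (hf : MeromorphicAt f (1 / 2))
    (hk : meromorphicOrderAt f (1 / 2) = (k : WithTop ℤ)) (hγ : AnalyticAt ℂ γ (1 / 2))
    (hγ0 : γ (1 / 2) ≠ 0) (w : ℂ)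
    (h : ∀ᶠ s in 𝓝[≠] (1 / 2 : ℂ), γ s * f s = w * (γ (1 - s) * f (1 - s))) :
    w * (-1) ^ k = 1 := by
  obtain ⟨g, hg, hg0, hge⟩ := (meromorphicOrderAt_eq_int_iff hf).mp hk
  have h1 := tendsto_refl.eventually hge
  have hne : ∀ᶠ s in 𝓝[≠] (1 / 2 : ℂ), s ≠ 1 / 2 := eventually_mem_nhdsWithin
  have h2 : ∀ᶠ s in 𝓝[≠] (1 / 2 : ℂ), γ s * g s = w * (-1) ^ k * (γ (1 - s) * g (1 - s)) := by
    filter_upwards [h, hge, h1, hne] with s h3 h4 h5 h6
    rw [h4, h5] at h3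
    have e1 : (1 : ℂ) - s - 1 / 2 = (-1) * (s - 1 / 2) := by ring
    rw [e1, mul_zpow] at h3
    simp only [smul_eq_mul] at h3
    have h7 : (s - 1 / 2 : ℂ) ^ k ≠ 0 := zpow_ne_zero _ (sub_ne_zero.mpr h6)
    apply mul_left_cancel₀ h7
    linear_combination h3
  have hc : ContinuousAt (fun s : ℂ => γ s * g s) (1 / 2) := hγ.continuousAt.mul hg.continuousAt
  have hl : Tendsto (fun s : ℂ => γ s * g s) (𝓝[≠] (1 / 2 : ℂ)) (𝓝 (γ (1 / 2) * g (1 / 2))) :=
    hc.tendsto.mono_left nhdsWithin_le_nhds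
  have hr : Tendsto (fun s : ℂ => w * (-1) ^ k * (γ (1 - s) * g (1 - s))) (𝓝[≠] (1 / 2 : ℂ))
      (𝓝 (w * (-1) ^ k * (γ (1 / 2) * g (1 / 2)))) :=
    (hl.comp tendsto_refl).const_mul _
  have heq := tendsto_nhds_unique (hl.congr' h2) hr
  have h8 : γ (1 / 2) * g (1 / 2) ≠ 0 := mul_ne_zero hγ0 hg0
  have h9 : (1 : ℂ) * (γ (1 / 2) * g (1 / 2)) = w * (-1) ^ k * (γ (1 / 2) * g (1 / 2)) := by
    rw [one_mul]; exact heq
  exact (mul_right_cancel₀ h8 h9).symm

lemma even_of_sign {k : ℤ} (h : (1 : ℂ) * (-1) ^ k = 1) : Even k := by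
  rcases Int.even_or_odd k with h1 | h1
  · exact h1
  · exfalso
    rw [one_mul, h1.neg_one_zpow] at h
    norm_num at h

section

variable {G : Type} [Group G] [Finite G]

/-- the half of a Heilbronn function with even multiplicities -/
theorem half {θ : G → ℂ} (hθ : IsHeilbronn θ)
    (hev : ∀ φ ∈ Irr G, ∃ k : ℤ, Even k ∧ ∑ᶠ g : G, θ g * φ g⁻¹ = (k : ℂ) * Nat.card G) :
    IsHeilbronn (fun g => θ g / 2) ∧ Virt (fun g => θ g / 2) := by
  classical
  have : Fintype G := Fintype.ofFinite G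
  have hv : Virt (fun g => θ g / 2) := by
    refine virt_of_int (fun g y => by rw [hθ.conj]) fun φ hφ => ?_
    obtain ⟨k, ⟨l, hl⟩, hk⟩ := hev φ hφ
    refine ⟨l, ?_⟩
    rw [finsum_eq_sum_of_fintype] at hk
    have h1 : ∑ g : G, θ g / 2 * φ g⁻¹ = (∑ g : G, θ g * φ g⁻¹) / 2 := by
      rw [Finset.sum_div]
      exact Finset.sum_congr rfl fun g _ => by ring
    rw [h1, hk, hl]
    push_cast
    ring
  refine ⟨⟨fun g h => by rw [hθ.conj], fun H ψ => ?_⟩, hv⟩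
  have : Fintype H := Fintype.ofFinite H
  choose! N hN using fun χ (hχ : χ ∈ Irr G) => hv.pr_int hχ
  choose! M hM using fun χ (hχ : χ ∈ Irr G) => exists_mult hχ H ψ
  have hth : (theta N : G → ℂ) = fun g => θ g / 2 := by
    funext g
    rw [theta, hv.expand g]
    exact Finset.sum_congr rfl fun χ hχ => by rw [hN χ (mem_irrF.mp hχ)]
  have h1 := theta_mult N H ψ M (fun χ hχ => hM χ hχ)
  rw [hth] at h1
  obtain ⟨n, hn⟩ := hθ.mult H ψ
  have h2 : ∑ᶠ h : H, θ h / 2 * (((ψ h)⁻¹ : ℂˣ) : ℂ) = (n : ℂ) * (Nat.card H : ℂ) / 2 := by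
    rw [← hn, finsum_eq_sum_of_fintype, finsum_eq_sum_of_fintype, Finset.sum_div]
    exact Finset.sum_congr rfl fun g _ => by ring
  have hH : (Nat.card H : ℂ) ≠ 0 := by exact_mod_cast Nat.card_pos.ne'
  set z : ℤ := ∑ χ ∈ irrF G, (M χ : ℤ) * N χ with hz
  have h3 : (n : ℂ) = 2 * (z : ℂ) := by
    rw [h2] at h1
    have h4 : (n : ℂ) * (Nat.card H : ℂ) = (2 * (z : ℂ)) * (Nat.card H : ℂ) := by
      linear_combination 2 * h1
    exact mul_right_cancel₀ hH h4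
  have h5 : (n : ℤ) = 2 * z := by exact_mod_cast h3
  obtain ⟨k, hk⟩ := Int.eq_ofNat_of_zero_le (show 0 ≤ z by omega)
  refine ⟨k, ?_⟩
  rw [h1, hk]
  push_cast
  rfl

namespace CentralData

variable (A : CentralData G)

/-- the function of the orders -/
noncomputable abbrev th : G → ℂ := theta A.toArtinData.ord

lemma hb : IsHeilbronn A.th := A.toArtinData.isHeilbronn

/-- orthogonal characters of subgroups have even multiplicity -/
lemma even_mult (H : Subgroup G) {φ : H → ℂ} (hφ : φ ∈ Irr H) (h1 : nu φ = 1) :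
    ∃ k : ℤ, Even k ∧ ∑ᶠ h : H, A.th h * φ h⁻¹ = (k : ℂ) * Nat.card H := by
  classical
  have : Fintype H := Fintype.ofFinite H
  have hH : (Nat.card H : ℂ) ≠ 0 := by exact_mod_cast Nat.card_pos.ne'
  choose! m hm using fun χ (hχ : χ ∈ Irr G) => res_mult H.subtype hχ hφ
  have hm' : ∀ χ ∈ Irr G, ∑ᶠ h : H, χ h * φ h⁻¹ = (m χ : ℂ) * (Nat.card H : ℂ) := by
    intro χ hχ
    rw [finsum_eq_sum_of_fintype, ← hm χ hχ]
    field_simp
    rfl
  obtain ⟨γ, hγ, hγ0, hfe⟩ := A.feq H φ hφ h1 m hm'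
  have hP : (fun s => ∏ᶠ χ ∈ Irr G, A.L χ s ^ m χ) = fun s => ∏ χ ∈ irrF G, (A.L χ ^ m χ) s := by
    funext s
    rw [finprod_mem_eq_finite_toFinset_prod _ (irr_finite (G := G))]
    rfl
  have hmer : MeromorphicAt (fun s => ∏ᶠ χ ∈ Irr G, A.L χ s ^ m χ) (1 / 2) := by
    rw [hP]
    exact MeromorphicAt.fun_prod fun χ hχ => ((A.mero χ (mem_irrF.mp hχ)).1).pow _
  have hord : meromorphicOrderAt (fun s => ∏ᶠ χ ∈ Irr G, A.L χ s ^ m χ) (1 / 2)
      = ((∑ χ ∈ irrF G, (m χ : ℤ) * A.toArtinData.ord χ : ℤ) : WithTop ℤ) := by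
    rw [hP, meromorphicOrderAt_fun_prod (fun χ hχ => ((A.mero χ (mem_irrF.mp hχ)).1).pow _),
      WithTop.coe_sum]
    refine Finset.sum_congr rfl fun χ hχ => ?_
    rw [meromorphicOrderAt_pow ((A.mero χ (mem_irrF.mp hχ)).1),
      ← A.toArtinData.coe_ord (mem_irrF.mp hχ)]
    push_cast
    rfl
  have h2 := sign_of_feq hmer hord hγ hγ0 1 (by
    filter_upwards [hfe] with s hs
    rw [one_mul]
    exact hs)
  refine ⟨_, even_of_sign h2, ?_⟩
  rw [finsum_eq_sum_of_fintype]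
  unfold CentralData.th theta
  simp_rw [Finset.sum_mul]
  rw [Finset.sum_comm, Int.cast_sum, Finset.sum_mul]
  refine Finset.sum_congr rfl fun χ hχ => ?_
  have h3 := hm' χ (mem_irrF.mp hχ)
  rw [finsum_eq_sum_of_fintype] at h3
  simp_rw [mul_assoc]
  rw [← Finset.mul_sum, h3]
  push_cast
  ring

/-- **Doubling principle.** -/
theorem half_on (H : Subgroup G) (hH : TotOrth H) :
    IsHeilbronn (fun h : H => A.th h / 2) ∧ Virt (fun h : H => A.th h / 2) :=
  half (A.hb.comp H.subtype) fun φ hφ => A.even_mult H hφ (hH φ hφ)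

end CentralData

end

end Pool.Agent.X21.Ce
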