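import Mathlib
import Pool.Agent.X21.Ce.A4
import Pool.Agent.X21.Sy.Ded

/-!
# Central zeros of small order
-/

set_option autoImplicit false
set_option linter.unusedSectionVars false

namespace Pool.Agent.X21.Ce

open Pool.Agent.H302R2 Pool.Agent.H541R3.ART Pool.Agent.W446.AS Pool.Agent.X21.Sy Filter Topology
  Equiv Equiv.Perm

section

variable {G : Type} [Group G] [Finite G]

lemma order_double {s₀ : ℂ} (A B : ArtinData G s₀)
    (h : ∀ χ ∈ Irr G, A.ord χ = 2 * B.ord χ) :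
    (∀ χ ∈ Irr G, meromorphicOrderAt (A.L χ) s₀
      = meromorphicOrderAt (B.L χ) s₀ + meromorphicOrderAt (B.L χ) s₀) ∧
    ∀ (H : Subgroup G) (ψ : H →* ℂˣ), meromorphicOrderAt (A.Lin H ψ) s₀
      = meromorphicOrderAt (B.Lin H ψ) s₀ + meromorphicOrderAt (B.Lin H ψ) s₀ := by
  constructor
  · intro χ hχ
    rw [← A.coe_ord hχ, ← B.coe_ord hχ, h χ hχ, ← WithTop.coe_add]
    congr 1
    ring
  · intro H ψ
    choose! m hm using fun χ (hχ : χ ∈ Irr G) => exists_mult hχ H ψ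
    rw [A.order_Lin H ψ m hm, B.order_Lin H ψ m hm, ← WithTop.coe_add]
    congr 1
    rw [← Finset.sum_add_distrib]
    refine Finset.sum_congr rfl fun χ hχ => ?_
    rw [h χ (mem_irrF.mp hχ)]
    ring

/-- **Doubling principle**: over a totally orthogonal group the orders at the central point are
twice the orders of functions with the formal properties of the L-functions. -/
theorem double (A : CentralData G) (hG : TotOrth G) : ∃ B : ArtinData G (1 / 2 : ℂ),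
    (∀ χ ∈ Irr G, meromorphicOrderAt (A.L χ) (1 / 2)
      = meromorphicOrderAt (B.L χ) (1 / 2) + meromorphicOrderAt (B.L χ) (1 / 2)) ∧
    ∀ (H : Subgroup G) (ψ : H →* ℂˣ), meromorphicOrderAt (A.Lin H ψ) (1 / 2)
      = meromorphicOrderAt (B.Lin H ψ) (1 / 2) + meromorphicOrderAt (B.Lin H ψ) (1 / 2) := by
  classical
  have : Fintype G := Fintype.ofFinite G
  have hcard : (Nat.card G : ℂ) ≠ 0 := by exact_mod_cast Nat.card_pos.ne'
  -- the multiplicities are even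
  have hev : ∀ φ ∈ Irr G, ∃ k : ℤ, Even k ∧ ∑ᶠ g : G, A.th g * φ g⁻¹ = (k : ℂ) * Nat.card G := by
    intro φ hφ
    rw [finsum_eq_sum_of_fintype]
    have e : (⊤ : Subgroup G) ≃* G := Subgroup.topEquiv
    have hφ' : (fun h : (⊤ : Subgroup G) => φ h) ∈ Irr (⊤ : Subgroup G) :=
      infl_irr (π := (⊤ : Subgroup G).subtype) (fun g => ⟨⟨g, Subgroup.mem_top g⟩, rfl⟩) hφ
    have hnu : nu (fun h : (⊤ : Subgroup G) => φ h) = 1 :=
      (hG.congr (Subgroup.topEquiv (G := G)).symm) _ hφ'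
    obtain ⟨k, hk, h1⟩ := A.even_mult ⊤ hφ' hnu
    refine ⟨k, hk, ?_⟩
    rw [Nat.card_congr (Subgroup.topEquiv (G := G)).toEquiv] at h1
    rw [← h1, ← finsum_eq_sum_of_fintype]
    exact (finsum_comp_equiv (Subgroup.topEquiv (G := G)).toEquiv
      (f := fun g : G => A.th g * φ g⁻¹)).symm
  obtain ⟨h1, h2⟩ := half A.hb hev
  obtain ⟨B, hB1, -⟩ := artin_of_virt h1 h2 (1 / 2 : ℂ)
  refine ⟨B, order_double A.toArtinData B fun χ hχ => ?_⟩
  obtain ⟨k, hk⟩ := h2.pr_int hχ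
  have h3 := hB1 χ hχ k hk
  rw [← B.coe_ord hχ] at h3
  have h4 : B.ord χ = k := WithTop.coe_injective h3
  have h5 := theta_pair A.toArtinData.ord hχ
  rw [pr_eq] at hk
  have h6 : ∑ g : G, A.th g / 2 * χ g⁻¹ = (∑ g : G, A.th g * χ g⁻¹) / 2 := by
    rw [Finset.sum_div]
    exact Finset.sum_congr rfl fun g _ => by ring
  rw [h6] at hk
  have h7 : ∑ g : G, A.th g * χ g⁻¹ = (A.toArtinData.ord χ : ℂ) * Nat.card G := h5
  rw [h7] at hk
  have h8 : (A.toArtinData.ord χ : ℂ) = 2 * (k : ℂ) := by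
    rw [← hk]
    field_simp
  rw [h4]
  exact_mod_cast h8

/-- functions with even multiplicities satisfy the functional equations -/
theorem central_of_even (A : ArtinData G (1 / 2 : ℂ)) (h : ∀ χ ∈ Irr G, Even (A.ord χ)) :
    ∃ C : CentralData G, C.toArtinData = A := by
  classical
  refine ⟨{ toArtinData := A, feq := ?_ }, rfl⟩
  intro H φ _ _ m _
  have hP : (fun s => ∏ᶠ χ ∈ Irr G, A.L χ s ^ m χ) = fun s => ∏ χ ∈ irrF G, (A.L χ ^ m χ) s := by
    funext s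
    rw [finprod_mem_eq_finite_toFinset_prod _ (irr_finite (G := G))]
    rfl
  have hmer : MeromorphicAt (fun s => ∏ᶠ χ ∈ Irr G, A.L χ s ^ m χ) (1 / 2) := by
    rw [hP]
    exact MeromorphicAt.fun_prod fun χ hχ => ((A.mero χ (mem_irrF.mp hχ)).1).pow _
  have hord : meromorphicOrderAt (fun s => ∏ᶠ χ ∈ Irr G, A.L χ s ^ m χ) (1 / 2)
      = ((∑ χ ∈ irrF G, (m χ : ℤ) * A.ord χ : ℤ) : WithTop ℤ) := by
    rw [hP, meromorphicOrderAt_fun_prod (fun χ hχ => ((A.mero χ (mem_irrF.mp hχ)).1).pow _),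
      WithTop.coe_sum]
    refine Finset.sum_congr rfl fun χ hχ => ?_
    rw [meromorphicOrderAt_pow ((A.mero χ (mem_irrF.mp hχ)).1),
      ← A.coe_ord (mem_irrF.mp hχ)]
    push_cast
    rfl
  have heven : Even (∑ χ ∈ irrF G, (m χ : ℤ) * A.ord χ) := by
    refine Finset.sum_induction _ Even (fun a b ha hb => ha.add hb) (by simp) ?_
    intro χ hχ
    exact (h χ (mem_irrF.mp hχ)).mul_left _
  obtain ⟨g, hg, hg0, hge⟩ := (meromorphicOrderAt_eq_int_iff hmer).mp hord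
  set k := ∑ χ ∈ irrF G, (m χ : ℤ) * A.ord χ with hk
  refine ⟨fun s => (g s)⁻¹, hg.inv hg0, inv_ne_zero hg0, ?_⟩
  have hgne : ∀ᶠ s in 𝓝[≠] (1 / 2 : ℂ), g s ≠ 0 :=
    (hg.continuousAt.eventually_ne hg0).filter_mono nhdsWithin_le_nhds
  have h1 := tendsto_refl.eventually hge
  have h2 := tendsto_refl.eventually hgne
  filter_upwards [hge, hgne, h1, h2] with s h3 h4 h5 h6
  rw [h3, h5]
  simp only [smul_eq_mul]
  have e1 : (1 : ℂ) - s - 1 / 2 = -(s - 1 / 2) := by ring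
  rw [e1, heven.neg_zpow]
  field_simp

end

section gen

variable {G : Type} [Group G] [Finite G]

/-- layers of a totally orthogonal subgroup -/
theorem central_built (A : CentralData G) {r : ℕ}
    (hr : meromorphicOrderAt (A.Lin ⊥ 1) (1 / 2) = (r : WithTop ℤ)) (H : Subgroup G)
    (hH : TotOrth H) (N : Subgroup G) [N.Normal] (hNH : N ≤ H)
    (hN : Pool.Agent.TH820.BuiltC (r / 2) (fun S [Group S] => AltOr (r / 2) S) (N.subgroupOf H)) :
    Even r ∧ (∀ χ ∈ Irr G, (∃ n ∈ N, χ n ≠ χ 1) → meromorphicOrderAt (A.L χ) (1 / 2) = 0) ∧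
    ((∀ χ ∈ Irr G, (∀ n ∈ N, χ n = χ 1) → IsMonomialChar χ) →
      ∀ χ ∈ Irr G, 0 ≤ meromorphicOrderAt (A.L χ) (1 / 2)) := by
  classical
  have : Fintype G := Fintype.ofFinite G
  have h1 : A.th 1 = r := A.toArtinData.theta_one hr
  obtain ⟨h2, -⟩ := A.half_on H hH
  obtain ⟨s, hs⟩ := h2.exists_deg
  have hs' : A.th 1 / 2 = s := by simpa using hs
  have hrs : r = s + s := by
    rw [h1] at hs'
    have h3 : (r : ℂ) = (s : ℂ) + s := by linear_combination 2 * hs'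
    exact_mod_cast h3
  have hr2 : r / 2 = s := by omega
  rw [hr2] at hN
  have hN' := hN.mono (fun S _ _ hS => (AltOr.facO hS).rigid)
  have hc := Pool.Agent.TH820.builtC_const hN' h2 le_rfl hs
  have hker : ∀ n ∈ N, A.th n = A.th 1 := by
    intro n hn
    have h4 := hc ⟨n, hNH hn⟩ (by rw [Subgroup.mem_subgroupOf]; exact hn) 1
    simp only [mul_one, OneMemClass.coe_one] at h4
    linear_combination 2 * h4
  have hcos := Pool.Agent.TH820.const_of_kernel A.hb N hker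
  have hz : ∀ χ ∈ Irr G, (∃ n ∈ N, χ n ≠ χ 1) → meromorphicOrderAt (A.L χ) (1 / 2) = 0 := by
    rintro χ hχ ⟨n, hn, hn1⟩
    have h3 := pair_zero hχ N hcos hn hn1
    have h4 := A.toArtinData.order_eq hχ (k := 0) (by rw [h3]; simp)
    exact_mod_cast h4
  refine ⟨⟨s, hrs⟩, hz, fun hmon χ hχ => ?_⟩
  by_cases h5 : ∃ n ∈ N, χ n ≠ χ 1
  · exact (hz χ hχ h5).ge
  · push Not at h5
    obtain ⟨k, hk⟩ := pair_monomial A.hb (hmon χ hχ h5)
    have h3 := A.toArtinData.order_eq hχ (k := (k : ℤ)) (by rw [hk]; push_cast; rfl)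
    rw [h3]
    exact_mod_cast Int.natCast_nonneg k

end gen

/-- symmetric groups -/
theorem central_sym {n : ℕ} (hn : 14 ≤ n) (A : CentralData (Perm (Fin n))) {r : ℕ}
    (hr : meromorphicOrderAt (A.Lin ⊥ 1) (1 / 2) = (r : WithTop ℤ))
    (hr1 : r < 2 * (n - 1)) (hr2 : n.Prime → r < 2 * (n - 2)) :
    Even r ∧ ∀ χ ∈ Irr (Perm (Fin n)), ∃ k : ℕ,
      meromorphicOrderAt (A.L χ) (1 / 2) = ((2 * k : ℕ) : WithTop ℤ) ∧
      ((∃ g ∈ alternatingGroup (Fin n), χ g ≠ χ 1) → k = 0) := by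
  classical
  have hT := totOrth_fin n
  obtain ⟨B, hB1, hB2⟩ := double A hT
  have hθ := B.isHeilbronn
  obtain ⟨s, hs⟩ := hθ.exists_deg
  have hs2 : meromorphicOrderAt (B.Lin ⊥ 1) (1 / 2) = (s : WithTop ℤ) := by
    have h3 := theta_mult B.ord ⊥ 1
    choose! m hm using fun χ (hχ : χ ∈ Irr (Perm (Fin n))) =>
      exists_mult hχ (⊥ : Subgroup (Perm (Fin n))) 1
    have h1 := B.order_Lin ⊥ 1 m hm
    have h2 := theta_mult B.ord ⊥ 1 m hm
    have : Fintype (⊥ : Subgroup (Perm (Fin n))) := Fintype.ofFinite _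
    rw [finsum_eq_sum_of_fintype, Fintype.sum_eq_single (1 : (⊥ : Subgroup (Perm (Fin n))))] at h2
    · rw [h1]
      have h4 : ((∑ χ ∈ irrF (Perm (Fin n)), (m χ : ℤ) * B.ord χ : ℤ) : ℂ) = ((s : ℤ) : ℂ) := by
        have h5 : (Nat.card (⊥ : Subgroup (Perm (Fin n))) : ℂ) = 1 := by simp
        rw [h5, mul_one] at h2
        rw [← h2]
        simpa using hs
      have h6 : (∑ χ ∈ irrF (Perm (Fin n)), (m χ : ℤ) * B.ord χ : ℤ) = (s : ℤ) := by exact_mod_cast h4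
      rw [h6]
      rfl
    · intro x hx
      exact absurd (Subsingleton.elim x 1) hx
  have hrs : r = s + s := by
    have h1 := hB2 ⊥ 1
    rw [hr, hs2] at h1
    exact_mod_cast h1
  have heven : ∀ g : Perm (Fin n), Perm.sign g = 1 → (theta B.ord : Perm (Fin n) → ℂ) g = s := by
    intro g hg
    have h3 := rigid_alt (r := s) hn (by omega) (fun h => by have := hr2 h; omega) _
      (hθ.comp (alternatingGroup (Fin n)).subtype) s le_rfl
      (by simpa using hs) ⟨g, mem_alternatingGroup.mpr hg⟩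
    simp only [map_one] at h3
    rw [hs] at h3
    exact h3
  obtain ⟨a, b, hab⟩ := even_core (⊤ : Subgroup (Perm (Fin n)))
    (hθ.comp (⊤ : Subgroup (Perm (Fin n))).subtype) (r := s) (by simpa using hs)
    (fun g hg => heven g hg)
  have hab' : ∀ g : Perm (Fin n), (theta B.ord : Perm (Fin n) → ℂ) g
      = a + b * ((Perm.sign g : ℤ) : ℂ) := fun g => hab ⟨g, Subgroup.mem_top g⟩
  refine ⟨⟨s, hrs⟩, fun χ hχ => ?_⟩
  let ε : Perm (Fin n) →* ℂˣ := (Units.map (Int.castRingHom ℂ : ℤ →* ℂ)).comp Perm.sign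
  have hε : ∀ g : Perm (Fin n), ((ε g : ℂˣ) : ℂ) = ((Perm.sign g : ℤ) : ℂ) := fun g => rfl
  obtain ⟨m₁, hm₁⟩ := pair_lin hχ (1 : Perm (Fin n) →* ℂˣ)
  obtain ⟨m₂, hm₂⟩ := pair_lin hχ ε
  have h2 : ∑ g : Perm (Fin n), (theta B.ord : Perm (Fin n) → ℂ) g * χ g⁻¹
      = (((a * m₁ + b * m₂ : ℕ) : ℤ) : ℂ) * Nat.card (Perm (Fin n)) := by
    have h3 : ∀ g : Perm (Fin n), (theta B.ord : Perm (Fin n) → ℂ) g * χ g⁻¹
        = a * ((((1 : Perm (Fin n) →* ℂˣ) g : ℂˣ) : ℂ) * χ g⁻¹)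
          + b * (((ε g : ℂˣ) : ℂ) * χ g⁻¹) := by
      intro g
      rw [hab' g, hε, MonoidHom.one_apply, Units.val_one]
      ring
    rw [Finset.sum_congr rfl (fun g _ => h3 g), Finset.sum_add_distrib, ← Finset.mul_sum,
      ← Finset.mul_sum, hm₁, hm₂]
    push_cast
    ring
  have h4 := B.order_eq hχ h2
  refine ⟨a * m₁ + b * m₂, ?_, ?_⟩
  · rw [hB1 χ hχ, h4]
    rw [two_mul]
    push_cast
    rfl
  · rintro ⟨g, hg, hg1⟩
    have h5 : ∀ m ∈ alternatingGroup (Fin n), ∀ x : Perm (Fin n),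
        (theta B.ord : Perm (Fin n) → ℂ) (m * x) = (theta B.ord : Perm (Fin n) → ℂ) x := by
      intro m hm x
      rw [mem_alternatingGroup] at hm
      rw [hab', hab', map_mul, hm, one_mul]
    have h3 := pair_zero hχ (alternatingGroup (Fin n)) h5 (x := g) hg hg1
    have h6 := B.order_eq hχ (k := 0) (by rw [h3]; simp)
    rw [h4] at h6
    exact_mod_cast h6

end Pool.Agent.X21.Ce
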