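import Mathlib
import Pool.Agent.X21.Ce.A5
import Pool.Agent.X21.Qd.De

/-!
# Squares of L-functions, sharpness, and quotients of zeta functions at the central point
-/

set_option autoImplicit false
set_option linter.unusedSectionVars false

namespace Pool.Agent.X21.Ce

open Pool.Agent.H302R2 Pool.Agent.H541R3.ART Pool.Agent.W446.AS Pool.Agent.X21.Sy Filter Topology
  Equiv Equiv.Perm MulAction

section

variable {G : Type} [Group G] [Finite G]

lemma lin_coe {s₀ : ℂ} (B : ArtinData G s₀) (H : Subgroup G) (ψ : H →* ℂˣ) :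
    MeromorphicAt (B.Lin H ψ) s₀ ∧ ∃ k : ℤ, meromorphicOrderAt (B.Lin H ψ) s₀ = (k : WithTop ℤ) := by
  choose! m hmm using fun χ (hχ : χ ∈ Irr G) => exists_mult hχ H ψ
  have h1 := B.induce H ψ m hmm
  have hP : (fun s => ∏ᶠ χ ∈ Irr G, B.L χ s ^ m χ)
      = fun s => ∏ χ ∈ irrF G, (B.L χ ^ m χ) s := by
    funext s
    rw [finprod_mem_eq_finite_toFinset_prod _ (irr_finite (G := G))]
    rfl
  have hmer : MeromorphicAt (fun s => ∏ᶠ χ ∈ Irr G, B.L χ s ^ m χ) s₀ := by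
    rw [hP]
    exact MeromorphicAt.fun_prod fun χ hχ => ((B.mero χ (mem_irrF.mp hχ)).1).pow _
  exact ⟨hmer.congr h1.symm, _, B.order_Lin H ψ m hmm⟩

lemma two_mul_coe (k : ℤ) : (2 : WithTop ℤ) * (k : WithTop ℤ) = ((2 * k : ℤ) : WithTop ℤ) := by
  rw [WithTop.coe_mul]
  rfl

/-- the squares of the L-functions -/
noncomputable def sq {s₀ : ℂ} (B : ArtinData G s₀) : ArtinData G s₀ where
  L χ s := B.L χ s ^ 2
  Lin H ψ s := B.Lin H ψ s ^ 2
  mero χ hχ := by
    refine ⟨((B.mero χ hχ).1).pow 2, ?_⟩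
    have h : meromorphicOrderAt (fun s => B.L χ s ^ 2) s₀ = 2 * meromorphicOrderAt (B.L χ) s₀ := by
      exact meromorphicOrderAt_pow ((B.mero χ hχ).1)
    rw [h, ← B.coe_ord hχ]
    exact WithTop.coe_ne_top
  hecke H ψ := by
    obtain ⟨hm, k, hk⟩ := lin_coe B H ψ
    have h : meromorphicOrderAt (fun s => B.Lin H ψ s ^ 2) s₀
        = 2 * meromorphicOrderAt (B.Lin H ψ) s₀ := meromorphicOrderAt_pow hm
    have h0 := B.hecke H ψ
    rw [hk] at h h0
    rw [h, two_mul_coe]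
    have h1 : 0 ≤ k := by exact_mod_cast h0
    have h2 : 0 ≤ 2 * k := by omega
    exact_mod_cast h2
  induce H ψ m hm := by
    filter_upwards [B.induce H ψ m hm] with s hs
    rw [hs, finprod_mem_eq_finite_toFinset_prod _ (irr_finite (G := G)),
      finprod_mem_eq_finite_toFinset_prod _ (irr_finite (G := G)), ← Finset.prod_pow]
    exact Finset.prod_congr rfl fun χ _ => by rw [← pow_mul, ← pow_mul, mul_comm]

lemma sq_ord {s₀ : ℂ} (B : ArtinData G s₀) (χ : G → ℂ) (hχ : χ ∈ Irr G) :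
    (sq B).ord χ = 2 * B.ord χ := by
  have h : meromorphicOrderAt ((sq B).L χ) s₀ = 2 * meromorphicOrderAt (B.L χ) s₀ :=
    meromorphicOrderAt_pow ((B.mero χ hχ).1)
  rw [← (sq B).coe_ord hχ, ← B.coe_ord hχ, two_mul_coe] at h
  exact WithTop.coe_injective h

/-- **Converse of the doubling principle.** -/
theorem square (B : ArtinData G (1 / 2 : ℂ)) : ∃ C : CentralData G,
    (∀ χ ∈ Irr G, meromorphicOrderAt (C.L χ) (1 / 2)
      = meromorphicOrderAt (B.L χ) (1 / 2) + meromorphicOrderAt (B.L χ) (1 / 2)) ∧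
    ∀ (H : Subgroup G) (ψ : H →* ℂˣ), meromorphicOrderAt (C.Lin H ψ) (1 / 2)
      = meromorphicOrderAt (B.Lin H ψ) (1 / 2) + meromorphicOrderAt (B.Lin H ψ) (1 / 2) := by
  obtain ⟨C, hC⟩ := central_of_even (sq B) (fun χ hχ => by
    rw [sq_ord B χ hχ]; exact even_two_mul _)
  refine ⟨C, ?_⟩
  have h := order_double (sq B) B (fun χ hχ => sq_ord B χ hχ)
  rw [← hC] at h
  exact h

end

/-- sharpness for the symmetric groups of prime degree -/
theorem central_barrier {p : ℕ} (hp : p.Prime) (h5 : 5 ≤ p) :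
    ∃ A : CentralData (Perm (Fin p)),
      meromorphicOrderAt (A.Lin ⊥ 1) (1 / 2) = ((2 * (p - 2) : ℕ) : WithTop ℤ) ∧
      ∃ χ ∈ Irr (Perm (Fin p)), meromorphicOrderAt (A.L χ) (1 / 2) < 0 := by
  have : Fact p.Prime := ⟨hp⟩
  obtain ⟨B, hB1, χ, hχ, hB2⟩ := barrier (α := Fin p) (Fintype.card_fin p) h5 (1 / 2 : ℂ)
  obtain ⟨C, hC1, hC2⟩ := square B
  refine ⟨C, ?_, χ, hχ, ?_⟩
  · rw [hC2, hB1, two_mul]
    push_cast
    rfl
  · rw [hC1 χ hχ]
    rw [← B.coe_ord hχ] at hB2 ⊢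
    have h1 : B.ord χ < 0 := by exact_mod_cast hB2
    rw [← WithTop.coe_add]
    have h2 : B.ord χ + B.ord χ < 0 := by omega
    exact_mod_cast h2

/-- sharpness for the quotients of zeta functions -/
theorem central_ded_barrier {p : ℕ} (hp : p.Prime) (h5 : 5 ≤ p) (a : Fin p) :
    ∃ A : CentralData (Perm (Fin p)),
      meromorphicOrderAt (A.Lin ⊥ 1) (1 / 2) = ((2 * (p - 2) : ℕ) : WithTop ℤ) ∧
      meromorphicOrderAt (A.Lin (stabA a) 1) (1 / 2)
        < meromorphicOrderAt (A.Lin (alternatingGroup (Fin p)) 1) (1 / 2) := by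
  have : Fact p.Prime := ⟨hp⟩
  obtain ⟨B, hB1, hB2⟩ := ded_barrier (α := Fin p) (Fintype.card_fin p) h5 (1 / 2 : ℂ) a
  obtain ⟨C, hC1, hC2⟩ := square B
  refine ⟨C, ?_, ?_⟩
  · rw [hC2, hB1, two_mul]
    push_cast
    rfl
  · rw [hC2, hC2]
    obtain ⟨-, k, hk⟩ := lin_coe B (stabA a) 1
    obtain ⟨-, l, hl⟩ := lin_coe B (alternatingGroup (Fin p)) 1
    rw [hk, hl] at hB2 ⊢
    have h1 : k < l := by exact_mod_cast hB2
    rw [← WithTop.coe_add, ← WithTop.coe_add]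
    have h2 : k + k < l + l := by omega
    exact_mod_cast h2

end Pool.Agent.X21.Ce
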