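import Mathlib
import Pool.Agent.X21.Ce.A6

/-!
# Quotients of zeta functions at the central point
-/

set_option autoImplicit false
set_option linter.unusedSectionVars false

namespace Pool.Agent.X21.Ce

open Pool.Agent.H302R2 Pool.Agent.H541R3.ART Pool.Agent.W446.AS Pool.Agent.X21.Sy
  Pool.Agent.X21.Qd Pool.Agent.TH820 Filter Topology Equiv Equiv.Perm MulAction

section

variable {G : Type} [Group G] [Finite G]

lemma half_order {x : WithTop ℤ} {r : ℕ} (h : (r : WithTop ℤ) = x + x) (hx : ∃ k : ℤ, x = k)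
    (h0 : 0 ≤ x) : Even r ∧ x = ((r / 2 : ℕ) : WithTop ℤ) := by
  obtain ⟨k, rfl⟩ := hx
  have h1 : 0 ≤ k := by exact_mod_cast h0
  obtain ⟨m, rfl⟩ := Int.eq_ofNat_of_zero_le h1
  have h2 : r = m + m := by exact_mod_cast h
  refine ⟨⟨m, h2⟩, ?_⟩
  have h3 : r / 2 = m := by omega
  rw [h3]
  rfl

lemma add_self_le {x y : WithTop ℤ} (h : x ≤ y) : x + x ≤ y + y := add_le_add h h

theorem central_ded_built (A : CentralData G) (hG : TotOrth G) {r : ℕ}
    (hr : meromorphicOrderAt (A.Lin ⊥ 1) (1 / 2) = (r : WithTop ℤ)) (N : Subgroup G) [N.Normal]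
    (hN : BuiltC (r / 2) (fun S [Group S] => AltOr (r / 2) S) N) (U M : Subgroup G) (hUM : U ≤ M)
    (hM : BuiltSC (fun S [Group S] => AltOr (r / 2) S) (⊤ : Subgroup (M ⧸ N.subgroupOf M)))
    (ρ : M →* ℂˣ) :
    meromorphicOrderAt (A.Lin M ρ) (1 / 2)
      ≤ meromorphicOrderAt (A.Lin U (ρ.comp (Subgroup.inclusion hUM))) (1 / 2) := by
  obtain ⟨B, hB1, hB2⟩ := double A hG
  have h1 := hB2 ⊥ 1
  rw [hr] at h1
  obtain ⟨-, h2⟩ := half_order h1 (lin_coe B ⊥ 1).2 (B.hecke ⊥ 1)
  rw [hB2, hB2]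
  exact add_self_le (ded_built B h2 N hN U M hUM hM ρ)

end

lemma alt_built {n s : ℕ} (h : AltFac s (alternatingGroup (Fin n))) :
    BuiltC s (fun S [Group S] => AltOr s S) (alternatingGroup (Fin n)) := by
  refine BuiltC.lay ⊥ _ BuiltC.bot bot_le ?_
  have hn : (alternatingGroup (Fin n)).Normal := inferInstance
  refine ⟨hn.map _ (QuotientGroup.mk'_surjective _), 1,
    fun _ => (alternatingGroup (Fin n)).map (QuotientGroup.mk' ⊥), ?_, ?_, ?_⟩
  · intro i j hij
    exact absurd (Subsingleton.elim i j) hij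
  · rw [ciSup_const]
  · intro i
    refine ⟨alternatingGroup (Fin n), inferInstance, inferInstance,
      (QuotientGroup.mk' (⊥ : Subgroup (Perm (Fin n)))).comp (alternatingGroup (Fin n)).subtype,
      Or.inl h, ?_⟩
    rw [MonoidHom.range_comp, Subgroup.range_subtype]

lemma alt_quot {n s : ℕ} (M : Subgroup (Perm (Fin n))) :
    BuiltSC (fun S [Group S] => AltOr s S)
      (⊤ : Subgroup (M ⧸ (alternatingGroup (Fin n)).subgroupOf M)) := by
  refine BuiltSC.abel ⊥ ⊤ BuiltSC.bot bot_le ?_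
  intro a _ b _
  induction a using QuotientGroup.induction_on with | _ a => ?_
  induction b using QuotientGroup.induction_on with | _ b => ?_
  rw [Subgroup.mem_bot]
  have h1 : (QuotientGroup.mk (a * b * a⁻¹ * b⁻¹) :
      M ⧸ (alternatingGroup (Fin n)).subgroupOf M) = 1 := by
    rw [QuotientGroup.eq_one_iff, Subgroup.mem_subgroupOf, mem_alternatingGroup]
    simp only [Subgroup.coe_mul, Subgroup.coe_inv, map_mul, map_inv]
    rw [mul_assoc (Perm.sign (a : Perm (Fin n))), mul_comm (Perm.sign (b : Perm (Fin n))),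
      ← mul_assoc, mul_inv_cancel, one_mul, mul_inv_cancel]
  exact h1

theorem central_ded_sym {n : ℕ} (hn : 14 ≤ n) (A : CentralData (Perm (Fin n))) {r : ℕ}
    (hr : meromorphicOrderAt (A.Lin ⊥ 1) (1 / 2) = (r : WithTop ℤ))
    (hr1 : r < 2 * (n - 1)) (hr2 : n.Prime → r < 2 * (n - 2)) (U M : Subgroup (Perm (Fin n)))
    (hUM : U ≤ M) (ρ : M →* ℂˣ) :
    meromorphicOrderAt (A.Lin M ρ) (1 / 2)
      ≤ meromorphicOrderAt (A.Lin U (ρ.comp (Subgroup.inclusion hUM))) (1 / 2) := by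
  refine central_ded_built A (totOrth_fin n) hr (alternatingGroup (Fin n)) (alt_built ?_) U M hUM
    (alt_quot M) ρ
  exact ⟨n, hn, by omega, fun h => by have := hr2 h; omega, ⟨MulEquiv.refl _⟩⟩

/-! ### the quadratic range -/

section quad

variable {n : ℕ}

/-- a subgroup of the alternating group as a subgroup of it -/
noncomputable abbrev sb (U : Subgroup (Perm (Fin n))) : Subgroup (alternatingGroup (Fin n)) :=
  U.subgroupOf (alternatingGroup (Fin n))

noncomputable def eqv {U : Subgroup (Perm (Fin n))} (hU : U ≤ alternatingGroup (Fin n)) :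
    sb U ≃* U := Subgroup.subgroupOfEquivOfLe hU

lemma eqv_coe {U : Subgroup (Perm (Fin n))} (hU : U ≤ alternatingGroup (Fin n)) (x : sb U) :
    ((eqv hU x : U) : Perm (Fin n)) = ((x : alternatingGroup (Fin n)) : Perm (Fin n)) := rfl

lemma lin_half (A : CentralData (Perm (Fin n)))
    (B : ArtinData (alternatingGroup (Fin n)) (1 / 2 : ℂ))
    (hth : (theta B.ord : alternatingGroup (Fin n) → ℂ)
      = fun g : alternatingGroup (Fin n) => A.th (g : Perm (Fin n)) / 2)
    {U : Subgroup (Perm (Fin n))} (hU : U ≤ alternatingGroup (Fin n)) (ψ : U →* ℂˣ) :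
    meromorphicOrderAt (A.Lin U ψ) (1 / 2)
      = meromorphicOrderAt (B.Lin (sb U) (ψ.comp (eqv hU).toMonoidHom)) (1 / 2)
        + meromorphicOrderAt (B.Lin (sb U) (ψ.comp (eqv hU).toMonoidHom)) (1 / 2) := by
  classical
  have : Fintype U := Fintype.ofFinite U
  have : Fintype (sb U) := Fintype.ofFinite _
  obtain ⟨k, hk⟩ := B.isHeilbronn.mult (sb U) (ψ.comp (eqv hU).toMonoidHom)
  rw [finsum_eq_sum_of_fintype] at hk
  rw [order_lin_eq B (sb U) (ψ.comp (eqv hU).toMonoidHom) (k := (k : ℤ)) (by rw [hk]; push_cast; rfl),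
    order_lin_eq A.toArtinData U ψ (k := (k : ℤ) + k) ?_, ← WithTop.coe_add]
  have h1 : ∑ x : U, (theta A.toArtinData.ord : Perm (Fin n) → ℂ) x * (((ψ x)⁻¹ : ℂˣ) : ℂ)
      = 2 * ∑ x : sb U, (theta B.ord : alternatingGroup (Fin n) → ℂ) x
        * (((ψ.comp (eqv hU).toMonoidHom x)⁻¹ : ℂˣ) : ℂ) := by
    rw [Finset.mul_sum]
    symm
    refine Fintype.sum_equiv (eqv hU).toEquiv _ _ fun x => ?_
    rw [hth]
    change 2 * (A.th ((x : alternatingGroup (Fin n)) : Perm (Fin n)) / 2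
      * (((ψ (eqv hU x))⁻¹ : ℂˣ) : ℂ)) = A.th ((eqv hU x : U) : Perm (Fin n))
        * (((ψ (eqv hU x))⁻¹ : ℂˣ) : ℂ)
    rw [eqv_coe]
    ring
  rw [h1, hk, Nat.card_congr (eqv hU).toEquiv]
  push_cast
  ring

lemma orb_card {U : Subgroup (Perm (Fin n))} (hU : U ≤ alternatingGroup (Fin n)) :
    Nat.card (orbitRel.Quotient (sb U) (Fin n)) = Nat.card (orbitRel.Quotient U (Fin n)) := by
  apply le_antisymm
  · have h := orb_le (X := Fin n) (eqv hU).symm.toMonoidHom (fun u x => by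
      have : ((((eqv hU).symm u : sb U) : alternatingGroup (Fin n)) : Perm (Fin n)) = u := by
        rw [← eqv_coe hU, MulEquiv.apply_symm_apply]
      change (((eqv hU).symm u : sb U) : alternatingGroup (Fin n)) • x = (u : Perm (Fin n)) • x
      rw [← this]; rfl) 1
    have h2 : (1 : sb U →* ℂˣ).comp (eqv hU).symm.toMonoidHom = 1 := rfl
    rw [h2, orbNum_one, orbNum_one] at h
    exact h
  · have h := orb_le (X := Fin n) (eqv hU).toMonoidHom (fun u x => rfl) 1
    have h2 : (1 : U →* ℂˣ).comp (eqv hU).toMonoidHom = 1 := rfl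
    rw [h2, orbNum_one, orbNum_one] at h
    exact h

theorem central_ded_quad (hn : 28 ≤ n) (A : CentralData (Perm (Fin n))) {r : ℕ}
    (hr : meromorphicOrderAt (A.Lin ⊥ 1) (1 / 2) = (r : WithTop ℤ))
    (hlt : 9 * r < (n - 2) * (n - 2)) :
    ∃ c : ℕ, ∀ (U M : Subgroup (Perm (Fin n))) (hUM : U ≤ M), M ≤ alternatingGroup (Fin n) →
      (∀ p : ℕ, p.Prime → n < 2 * p + 2 → ¬ p ∣ Nat.card M) →
      meromorphicOrderAt (A.Lin U 1) (1 / 2) = meromorphicOrderAt (A.Lin M 1) (1 / 2) +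
        ((2 * c * (Nat.card (orbitRel.Quotient U (Fin n))
          - Nat.card (orbitRel.Quotient M (Fin n))) : ℕ) : WithTop ℤ) ∧
      ∀ ρ : M →* ℂˣ, meromorphicOrderAt (A.Lin M ρ) (1 / 2)
        ≤ meromorphicOrderAt (A.Lin U (ρ.comp (Subgroup.inclusion hUM))) (1 / 2) := by
  classical
  have hcard : (Nat.card (Perm (Fin n)) : ℂ) ≠ 0 := by exact_mod_cast Nat.card_pos.ne'
  -- the halved function on the alternating group
  obtain ⟨B₀, hB1, -⟩ := double A (totOrth_fin n)
  have hth₀ : (theta B₀.ord : Perm (Fin n) → ℂ) = fun g => A.th g / 2 := by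
    funext g
    unfold CentralData.th theta
    rw [Finset.sum_div]
    refine Finset.sum_congr rfl fun χ hχ => ?_
    have h1 := hB1 χ (mem_irrF.mp hχ)
    rw [← A.toArtinData.coe_ord (mem_irrF.mp hχ), ← B₀.coe_ord (mem_irrF.mp hχ),
      ← WithTop.coe_add] at h1
    have h2 : A.toArtinData.ord χ = B₀.ord χ + B₀.ord χ := WithTop.coe_injective h1
    rw [h2]
    push_cast
    ring
  have hH : IsHeilbronn (fun g : alternatingGroup (Fin n) =>
      (theta B₀.ord : Perm (Fin n) → ℂ) ((alternatingGroup (Fin n)).subtype g)) :=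
    B₀.isHeilbronn.comp _
  have hV : Virt (fun g : alternatingGroup (Fin n) =>
      (theta B₀.ord : Perm (Fin n) → ℂ) ((alternatingGroup (Fin n)).subtype g)) :=
    (theta_virt B₀.ord).comp _
  obtain ⟨B, hC1, hC2⟩ := artin_of_virt hH hV (1 / 2 : ℂ)
  have hth : (theta B.ord : alternatingGroup (Fin n) → ℂ)
      = fun g : alternatingGroup (Fin n) => A.th (g : Perm (Fin n)) / 2 := by
    funext g
    have h0 := congrFun hth₀ (g : Perm (Fin n))
    rw [← h0]
    have h9 := hV.expand g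
    change _ = (theta B₀.ord : Perm (Fin n) → ℂ) ((alternatingGroup (Fin n)).subtype g)
    rw [theta]
    refine Eq.trans ?_ h9.symm
    refine Finset.sum_congr rfl fun χ hχ => ?_
    obtain ⟨k, hk⟩ := hV.pr_int (mem_irrF.mp hχ)
    have h1 := hC1 χ (mem_irrF.mp hχ) k hk
    rw [← B.coe_ord (mem_irrF.mp hχ)] at h1
    have h2 : B.ord χ = k := WithTop.coe_injective h1
    rw [hk, h2]
  have h1 : A.th 1 = r := A.toArtinData.theta_one hr
  obtain ⟨s, hs⟩ := B.isHeilbronn.exists_deg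
  have hrs : r = s + s := by
    have h3 := hs
    rw [hth] at h3
    simp only [OneMemClass.coe_one] at h3
    rw [h1] at h3
    have h4 : (r : ℂ) = (s : ℂ) + s := by linear_combination 2 * h3
    exact_mod_cast h4
  have hBs : meromorphicOrderAt (B.Lin ⊥ 1) (1 / 2) = (s : WithTop ℤ) := by
    refine hC2 s ?_
    have h3 := congrFun hth 1
    have h4 := congrFun hth₀ 1
    rw [hs] at h3
    change (theta B₀.ord : Perm (Fin n) → ℂ) 1 = s
    rw [h4, h3]
    rfl
  obtain ⟨c, hc⟩ := ded_quad hn B hBs (by rw [hrs] at hlt; omega)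
  refine ⟨c, fun U M hUM hM hp => ?_⟩
  have hU : U ≤ alternatingGroup (Fin n) := hUM.trans hM
  have hle : sb U ≤ sb M := fun x hx => hUM hx
  obtain ⟨h5, h6⟩ := hc (sb U) (sb M) hle (by
    intro p h1 h2
    rw [Nat.card_congr (eqv hM).toEquiv]
    exact hp p h1 h2)
  constructor
  · rw [lin_half A B hth hU 1, lin_half A B hth hM 1]
    have e1 : (1 : U →* ℂˣ).comp (eqv hU).toMonoidHom = 1 := rfl
    have e2 : (1 : M →* ℂˣ).comp (eqv hM).toMonoidHom = 1 := rfl
    rw [e1, e2, h5, orb_card hU, orb_card hM]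
    obtain ⟨-, k, hk⟩ := lin_coe B (sb M) 1
    rw [hk]
    have e3 : ∀ a : ℕ, ((a : ℕ) : WithTop ℤ) = (((a : ℕ) : ℤ) : WithTop ℤ) := fun a => rfl
    rw [e3, e3, ← WithTop.coe_add, ← WithTop.coe_add, ← WithTop.coe_add, ← WithTop.coe_add]
    congr 1
    push_cast
    ring
  · intro ρ
    rw [lin_half A B hth hU, lin_half A B hth hM]
    have h7 := h6 (ρ.comp (eqv hM).toMonoidHom)
    have e4 : (ρ.comp (eqv hM).toMonoidHom).comp (Subgroup.inclusion hle)
        = (ρ.comp (Subgroup.inclusion hUM)).comp (eqv hU).toMonoidHom := rfl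
    rw [e4] at h7
    exact add_self_le h7

end quad

end Pool.Agent.X21.Ce
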