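import Mathlib
import Pool.Agent.X21.Ce.A7

/-!
# The quadratic range at the central point
-/

set_option autoImplicit false
set_option linter.unusedSectionVars false

namespace Pool.Agent.X21.Ce

open Pool.Agent.H302R2 Pool.Agent.H541R3.ART Pool.Agent.W446.AS Pool.Agent.X21.Sy
  Pool.Agent.X21.Qd Pool.Agent.TH820 Filter Topology Equiv Equiv.Perm MulAction Function

section

variable {G : Type} [Group G] [Finite G] {s₀ : ℂ}

lemma exists_order (A : ArtinData G s₀) (H : Subgroup G) [Fintype H] {η : H → ℂ}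
    (hη : η ∈ Irr H) :
    ∃ k : ℤ, ∑ h : H, (theta A.ord : G → ℂ) h * η h⁻¹ = (k : ℂ) * Nat.card H ∧
      ∀ F : ℂ → ℂ, IsRel A H η F → meromorphicOrderAt F s₀ = (k : WithTop ℤ) := by
  classical
  have h2 : ∃ k : ℤ, ∑ h : H, (theta A.ord : G → ℂ) h * η h⁻¹
      = (k : ℂ) * Nat.card H := by
    have h3 : ∀ χ : G → ℂ, ∃ m : ℕ, χ ∈ Irr G →
        ∑ᶠ h : H, χ h * η h⁻¹ = (m : ℂ) * (Nat.card H : ℂ) := by
      intro χ
      by_cases hχ : χ ∈ Irr G
      · obtain ⟨n, ρ, hρ, rfl⟩ := hχ
        obtain ⟨m, hm⟩ := exists_mult' ρ H hη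
        exact ⟨m, fun _ => hm⟩
      · exact ⟨0, fun h => absurd h hχ⟩
    choose m hm using h3
    refine ⟨∑ χ ∈ irrF G, (m χ : ℤ) * A.ord χ, ?_⟩
    unfold theta
    simp_rw [Finset.sum_mul]
    rw [Finset.sum_comm, Int.cast_sum, Finset.sum_mul]
    refine Finset.sum_congr rfl fun χ hχ => ?_
    have h4 := hm χ (mem_irrF.mp hχ)
    rw [finsum_eq_sum_of_fintype] at h4
    simp_rw [mul_assoc]
    rw [← Finset.mul_sum, h4]
    push_cast
    ring
  obtain ⟨k, hk⟩ := h2
  exact ⟨k, hk, fun F hF => order_rel A hF hk⟩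

end

section quad

variable {n : ℕ}

/-- the halved function on the alternating group -/
lemma alt_half (A : CentralData (Perm (Fin n))) {r : ℕ}
    (hr : meromorphicOrderAt (A.Lin ⊥ 1) (1 / 2) = (r : WithTop ℤ)) :
    ∃ (B : ArtinData (alternatingGroup (Fin n)) (1 / 2 : ℂ)) (s : ℕ), r = s + s ∧
      meromorphicOrderAt (B.Lin ⊥ 1) (1 / 2) = (s : WithTop ℤ) ∧
      (theta B.ord : alternatingGroup (Fin n) → ℂ)
        = fun g : alternatingGroup (Fin n) => A.th (g : Perm (Fin n)) / 2 := by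
  classical
  obtain ⟨B₀, hB1, -⟩ := double A (totOrth_fin n)
  have hth₀ : (theta B₀.ord : Perm (Fin n) → ℂ) = fun g => A.th g / 2 := by
    funext g
    unfold CentralData.th theta
    rw [Finset.sum_div]
    refine Finset.sum_congr rfl fun χ hχ => ?_
    have h1 := hB1 χ (mem_irrF.mp hχ)
    rw [← A.toArtinData.coe_ord (mem_irrF.mp hχ), ← B₀.coe_ord (mem_irrF.mp hχ),
      ← WithTop.coe_add] at h1
    have h2 : A.toArtinData.ord χ = B₀.ord χ + B₀.ord χ := WithTop.coe_injective h1
    rw [h2]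
    push_cast
    ring
  have hH : IsHeilbronn (fun g : alternatingGroup (Fin n) =>
      (theta B₀.ord : Perm (Fin n) → ℂ) ((alternatingGroup (Fin n)).subtype g)) :=
    B₀.isHeilbronn.comp _
  have hV : Virt (fun g : alternatingGroup (Fin n) =>
      (theta B₀.ord : Perm (Fin n) → ℂ) ((alternatingGroup (Fin n)).subtype g)) :=
    (theta_virt B₀.ord).comp _
  obtain ⟨B, hC1, hC2⟩ := artin_of_virt hH hV (1 / 2 : ℂ)
  have hth : (theta B.ord : alternatingGroup (Fin n) → ℂ)
      = fun g : alternatingGroup (Fin n) => A.th (g : Perm (Fin n)) / 2 := by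
    funext g
    have h0 := congrFun hth₀ (g : Perm (Fin n))
    rw [← h0]
    have h9 := hV.expand g
    change _ = (theta B₀.ord : Perm (Fin n) → ℂ) ((alternatingGroup (Fin n)).subtype g)
    rw [theta]
    refine Eq.trans ?_ h9.symm
    refine Finset.sum_congr rfl fun χ hχ => ?_
    obtain ⟨k, hk⟩ := hV.pr_int (mem_irrF.mp hχ)
    have h1 := hC1 χ (mem_irrF.mp hχ) k hk
    rw [← B.coe_ord (mem_irrF.mp hχ)] at h1
    have h2 : B.ord χ = k := WithTop.coe_injective h1
    rw [hk, h2]
  have h1 : A.th 1 = r := A.toArtinData.theta_one hr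
  obtain ⟨s, hs⟩ := B.isHeilbronn.exists_deg
  have hrs : r = s + s := by
    have h3 := hs
    rw [hth] at h3
    simp only [OneMemClass.coe_one] at h3
    rw [h1] at h3
    have h4 : (r : ℂ) = (s : ℂ) + s := by linear_combination 2 * h3
    exact_mod_cast h4
  have hBs : meromorphicOrderAt (B.Lin ⊥ 1) (1 / 2) = (s : WithTop ℤ) := by
    refine hC2 s ?_
    have h3 := congrFun hth 1
    have h4 := congrFun hth₀ 1
    rw [hs] at h3
    change (theta B₀.ord : Perm (Fin n) → ℂ) 1 = s
    rw [h4, h3]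
    rfl
  exact ⟨B, s, hrs, hBs, hth⟩

/-- transport of irreducible characters -/
lemma irr_eqv {U : Subgroup (Perm (Fin n))} (hU : U ≤ alternatingGroup (Fin n)) {η : U → ℂ}
    (hη : η ∈ Irr U) : (fun x : sb U => η (eqv hU x)) ∈ Irr (sb U) := by
  have h1 := Pool.Agent.W446.AS.infl_irr (π := (eqv hU).toMonoidHom) (eqv hU).surjective hη
  exact h1

/-- sums over `U` and over its copy in the alternating group -/
lemma sum_half (A : CentralData (Perm (Fin n)))
    (B : ArtinData (alternatingGroup (Fin n)) (1 / 2 : ℂ))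
    (hth : (theta B.ord : alternatingGroup (Fin n) → ℂ)
      = fun g : alternatingGroup (Fin n) => A.th (g : Perm (Fin n)) / 2)
    {U : Subgroup (Perm (Fin n))} (hU : U ≤ alternatingGroup (Fin n)) [Fintype U]
    [Fintype (sb U)] (η : U → ℂ) :
    ∑ x : U, (theta A.toArtinData.ord : Perm (Fin n) → ℂ) x * η x⁻¹
      = 2 * ∑ x : sb U, (theta B.ord : alternatingGroup (Fin n) → ℂ) x * η (eqv hU x⁻¹) := by
  rw [Finset.mul_sum]
  symm
  refine Fintype.sum_equiv (eqv hU).toEquiv _ _ fun x => ?_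
  rw [hth]
  change 2 * (A.th ((x : alternatingGroup (Fin n)) : Perm (Fin n)) / 2 * η (eqv hU x⁻¹))
    = A.th ((eqv hU x : U) : Perm (Fin n)) * η (eqv hU x)⁻¹
  rw [eqv_coe, map_inv]
  ring

lemma eqv_one {U : Subgroup (Perm (Fin n))} (hU : U ≤ alternatingGroup (Fin n)) (η : U → ℂ) :
    (fun x : sb U => η (eqv hU x)) = 1 ↔ η = 1 := by
  constructor
  · intro h
    funext x
    have h1 := congrFun h ((eqv hU).symm x)
    simpa using h1
  · rintro rfl
    rfl

open scoped Classical in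
theorem central_quad (hn : 28 ≤ n) (A : CentralData (Perm (Fin n))) {r : ℕ}
    (hr : meromorphicOrderAt (A.Lin ⊥ 1) (1 / 2) = (r : WithTop ℤ))
    (hlt : 9 * r < (n - 2) * (n - 2)) :
    Even r ∧ ∃ c : ℕ,
      ∀ H : Subgroup (Perm (Fin n)), H ≤ alternatingGroup (Fin n) →
        (∀ η ∈ Irr H, (∀ h : H, ¬ Small n (h : Perm (Fin n)) → η h = 0) →
          ∃ d : ℕ, ∑ᶠ h : H, (fx (h : Perm (Fin n)) : ℂ) * η h⁻¹ = (d : ℂ) * Nat.card H ∧
            ∀ F : ℂ → ℂ, IsRel A.toArtinData H η F →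
              0 ≤ meromorphicOrderAt F (1 / 2) ∧ meromorphicOrderAt F (1 / 2)
                = ((2 * ((if η = 1 then ((r / 2 : ℕ) : ℤ) - c * n else 0) + c * d) : ℤ)
                  : WithTop ℤ)) ∧
        ((∀ p : ℕ, p.Prime → n < 2 * p + 2 → ¬ p ∣ Nat.card H) →
          ∀ ψ : H →* ℂˣ, meromorphicOrderAt (A.Lin H ψ) (1 / 2)
            = ((2 * ((if ψ = 1 then ((r / 2 : ℕ) : ℤ) - c * n else 0) + c * orbNum H (Fin n) ψ) : ℤ)
              : WithTop ℤ)) := by
  obtain ⟨B, s, hrs, hBs, hth⟩ := alt_half A hr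
  have hs2 : r / 2 = s := by omega
  refine ⟨⟨s, hrs⟩, ?_⟩
  obtain ⟨c, γ, h1, h2, -, -⟩ := artin_quad hn B hBs (by omega)
  refine ⟨c, fun H hH => ?_⟩
  have fH : Fintype H := Fintype.ofFinite _
  have fS : Fintype (sb H) := Fintype.ofFinite _
  rw [hs2]
  refine ⟨fun η hη hv => ?_, fun hp ψ => ?_⟩
  · obtain ⟨d, hd1, hd2, hd3⟩ := h1 (sb H) (fun x => η (eqv hH x)) (irr_eqv hH hη) (by
      intro h hh
      exact hv (eqv hH h) (by rw [eqv_coe]; exact hh))
    refine ⟨d, ?_, fun F hF => ?_⟩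
    · rw [Nat.card_congr (eqv hH).symm.toEquiv, ← hd1, finsum_eq_sum_of_fintype,
        finsum_eq_sum_of_fintype]
      symm
      refine Fintype.sum_equiv (eqv hH).toEquiv _ _ fun x => ?_
      rw [map_inv]
      rfl
    · obtain ⟨k, hk1, hk2⟩ := exists_order B (sb H) (irr_eqv hH hη)
      obtain ⟨F', hF'⟩ := exists_rel B (sb H) (irr_eqv hH hη)
      have h3 := hk2 F' hF'
      rw [hd3 F' hF'] at h3
      have h4 : (if η = 1 then (s : ℤ) - c * n else 0) + c * d = k := by
        have h5 := WithTop.coe_injective h3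
        simp only [eqv_one hH η] at h5
        exact h5
      simp only [eqv_one hH η] at hd2
      have h6 : meromorphicOrderAt F (1 / 2) = ((2 * k : ℤ) : WithTop ℤ) := by
        refine order_rel A.toArtinData hF ?_
        rw [sum_half A B hth hH η, hk1, Nat.card_congr (eqv hH).toEquiv]
        push_cast
        ring
      rw [h4] at hd2
      rw [h6]
      refine ⟨?_, ?_⟩
      · exact_mod_cast (by positivity : (0 : ℤ) ≤ 2 * k)
      · rw [← h4]
        by_cases h7 : η = 1
        · rw [if_pos h7, if_pos h7]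
        · rw [if_neg h7, if_neg h7]
  · have h3 := h2 (sb H) (ψ.comp (eqv hH).toMonoidHom) (by
      intro p h1 h2
      rw [Nat.card_congr (eqv hH).toEquiv]
      exact hp p h1 h2)
    rw [lin_half A B hth hH ψ, h3, ← WithTop.coe_add]
    have h4 : ψ.comp (eqv hH).toMonoidHom = 1 ↔ ψ = 1 := by
      constructor
      · intro h
        ext x
        have h1 := DFunLike.congr_fun h ((eqv hH).symm x)
        simpa using h1
      · rintro rfl
        rfl
    have h5 : orbNum (sb H) (Fin n) (ψ.comp (eqv hH).toMonoidHom) = orbNum H (Fin n) ψ := by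
      apply le_antisymm
      · have h := orb_le (X := Fin n) (eqv hH).symm.toMonoidHom (fun u x => by
          have : ((((eqv hH).symm u : sb H) : alternatingGroup (Fin n)) : Perm (Fin n)) = u := by
            rw [← eqv_coe hH, MulEquiv.apply_symm_apply]
          change (((eqv hH).symm u : sb H) : alternatingGroup (Fin n)) • x
            = (u : Perm (Fin n)) • x
          rw [← this]; rfl) (ψ.comp (eqv hH).toMonoidHom)
        have h6 : (ψ.comp (eqv hH).toMonoidHom).comp (eqv hH).symm.toMonoidHom = ψ := by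
          ext x
          simp
        rw [h6] at h
        exact h
      · exact orb_le (X := Fin n) (eqv hH).toMonoidHom (fun u x => rfl) ψ
    congr 1
    rw [h5]
    by_cases h7 : ψ = 1
    · rw [if_pos h7, if_pos (h4.mpr h7)]
      ring
    · rw [if_neg h7, if_neg (fun h => h7 (h4.mp h))]
      ring

end quad

end Pool.Agent.X21.Ce
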