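import Mathlib
import Pool.Agent.X21.Ce.A5
import Pool.Agent.TH820.KerArt

/-!
# Central Heilbronn functions: layers
-/

set_option autoImplicit false
set_option linter.unusedSectionVars false

namespace Pool.Agent.X21.Ce

open Pool.Agent.H302R2 Pool.Agent.H302R5 Pool.Agent.H541R3.ART Pool.Agent.W446.AS Pool.Agent.X21.Sy
  Pool.Agent.TH820 Pool.Agent.W295.Cl Pool.Agent.W295.Sp Pool.Agent.H417R3.HB Equiv Equiv.Perm

/-- Heilbronn functions with even multiplicities at the orthogonal characters of subgroups -/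
structure CHeil {G : Type} [Group G] (θ : G → ℂ) : Prop where
  hb : IsHeilbronn θ
  ev : ∀ (H : Subgroup G) (φ : H → ℂ), φ ∈ Irr H → nu φ = 1 →
    ∃ k : ℤ, Even k ∧ ∑ᶠ h : H, θ h * φ h⁻¹ = (k : ℂ) * Nat.card H

section

variable {S T : Type} [Group S] [Finite S] [Group T] [Finite T]

lemma nu_comp (f : S →* T) (hf : Function.Surjective f) (χ : T → ℂ) :
    nu (fun s => χ (f s)) = nu χ := by
  classical
  have : Fintype S := Fintype.ofFinite S
  have : Fintype T := Fintype.ofFinite T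
  unfold nu
  rw [finsum_eq_sum_of_fintype, finsum_eq_sum_of_fintype]
  have h1 := sum_comp_surj f hf (fun t => χ (t * t))
  have h3 : Nat.card S = Nat.card f.ker * Nat.card T := by
    rw [← Nat.card_congr (QuotientGroup.quotientKerEquivOfSurjective f hf).toEquiv, mul_comm]
    exact Subgroup.card_eq_card_quotient_mul_card_subgroup _
  have h4 : (Nat.card f.ker : ℂ) ≠ 0 := by exact_mod_cast Nat.card_pos.ne'
  have h5 : (Nat.card T : ℂ) ≠ 0 := by exact_mod_cast Nat.card_pos.ne'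
  simp only [map_mul]
  rw [h1, h3]
  push_cast
  field_simp

lemma TotOrth.image (hS : TotOrth S) (f : S →* T) (hf : Function.Surjective f) : TotOrth T := by
  intro χ hχ
  rw [← nu_comp f hf χ]
  exact hS _ (infl_irr hf hχ)

end

section

variable {G : Type} [Group G] [Finite G] {θ : G → ℂ}

lemma CHeil.sub (hθ : CHeil θ) (X : Subgroup G) : CHeil (fun x : X => θ x) := by
  refine ⟨hθ.hb.comp X.subtype, fun H φ hφ h1 => ?_⟩
  let e : H ≃* H.map X.subtype := H.equivMapOfInjective X.subtype X.subtype_injective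
  let φ' : H.map X.subtype → ℂ := fun y => φ (e.symm y)
  have hφ' : φ' ∈ Irr (H.map X.subtype) :=
    infl_irr (π := e.symm.toMonoidHom) e.symm.surjective hφ
  have hn : nu φ' = 1 := by
    rw [← h1]; exact nu_comp e.symm.toMonoidHom e.symm.surjective φ
  obtain ⟨k, hk, h2⟩ := hθ.ev _ φ' hφ' hn
  refine ⟨k, hk, ?_⟩
  rw [Nat.card_congr e.toEquiv, ← h2, ← finsum_comp_equiv e.toEquiv]
  refine finsum_congr fun h => ?_
  have h3 : e.symm ((e.toEquiv h)⁻¹) = h⁻¹ := by
    have h4 : (e.toEquiv h)⁻¹ = e h⁻¹ := (map_inv e h).symm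
    rw [h4, MulEquiv.symm_apply_apply]
  change _ = θ ((e.toEquiv h : G)) * φ (e.symm ((e.toEquiv h)⁻¹))
  rw [h3]
  rfl

lemma CHeil.descend (hθ : CHeil θ) (N : Subgroup G) [N.Normal]
    (h : ∀ g : G, ∀ n ∈ N, θ (g * n) = θ g) : CHeil (Pool.Agent.H302R2.descend N θ) := by
  classical
  refine ⟨hθ.hb.descend N h, fun H φ hφ h1 => ?_⟩
  have : Fintype H := Fintype.ofFinite _
  have : Fintype (H.comap (QuotientGroup.mk' N)) := Fintype.ofFinite _
  let π : H.comap (QuotientGroup.mk' N) →* H :=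
    ((QuotientGroup.mk' N).comp (H.comap (QuotientGroup.mk' N)).subtype).codRestrict H
      (fun e => e.2)
  have hπ : Function.Surjective π := by
    rintro ⟨y, hy⟩
    obtain ⟨x, rfl⟩ := QuotientGroup.mk_surjective y
    exact ⟨⟨x, hy⟩, rfl⟩
  obtain ⟨k, hk, hn⟩ := hθ.ev (H.comap (QuotientGroup.mk' N)) (fun e => φ (π e))
    (infl_irr hπ hφ) (by rw [nu_comp π hπ φ, h1])
  refine ⟨k, hk, ?_⟩
  rw [finsum_eq_sum_of_fintype] at hn ⊢
  have h1 := sum_comp_surj π hπ (fun h => Pool.Agent.H302R2.descend N θ h * φ h⁻¹)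
  have h2 : ∀ e : H.comap (QuotientGroup.mk' N),
      Pool.Agent.H302R2.descend N θ (π e) = θ e := by
    intro e
    exact descend_mk h _
  simp only [h2] at h1
  simp only [map_inv] at hn
  rw [hn] at h1
  have h3 : Nat.card (H.comap (QuotientGroup.mk' N)) = Nat.card π.ker * Nat.card H := by
    rw [← Nat.card_congr (QuotientGroup.quotientKerEquivOfSurjective π hπ).toEquiv, mul_comm]
    exact Subgroup.card_eq_card_quotient_mul_card_subgroup _
  have h4 : (Nat.card π.ker : ℂ) ≠ 0 := by exact_mod_cast Nat.card_pos.ne'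
  apply mul_left_cancel₀ h4
  rw [← h1, h3]; push_cast; ring

/-- halving over totally orthogonal subgroups -/
lemma CHeil.half (hθ : CHeil θ) (H : Subgroup G) (hH : TotOrth H) :
    IsHeilbronn (fun h : H => θ h / 2) :=
  (Pool.Agent.X21.Ce.half (hθ.hb.comp H.subtype) fun φ hφ => hθ.ev H φ hφ (hH φ hφ)).1

/-- the whole group -/
lemma CHeil.half_top (hθ : CHeil θ) (hG : TotOrth G) : IsHeilbronn (fun g : G => θ g / 2) := by
  have h1 := hθ.half ⊤ (hG.congr (Subgroup.topEquiv (G := G)).symm)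
  have h2 := h1.comp (Subgroup.topEquiv (G := G)).symm.toMonoidHom
  exact h2

lemma CentralData.cheil (A : CentralData G) : CHeil A.th :=
  ⟨A.hb, fun H _ hφ h1 => A.even_mult H hφ h1⟩

/-- the degree is even -/
lemma CHeil.even_deg (hθ : CHeil θ) {s : ℕ} (hs : θ 1 = s) : Even s := by
  have : Unique (⊥ : Subgroup G) := ⟨⟨1⟩, fun a => Subsingleton.elim _ _⟩
  have h1 := hθ.half (⊥ : Subgroup G) totOrth_unique
  obtain ⟨t, ht⟩ := h1.exists_deg
  simp only [OneMemClass.coe_one] at ht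
  rw [hs] at ht
  refine ⟨t, ?_⟩
  have h2 : (s : ℂ) = t + t := by linear_combination 2 * ht
  exact_mod_cast h2

/-- `X` is rigid at the central point for the degrees up to `r` -/
def CRigid (r : ℕ) (X : Type) [Group X] : Prop :=
  ∀ θ : X → ℂ, CHeil θ → ∀ s : ℕ, s ≤ r → θ 1 = s → ∀ x, θ x = θ 1

/-- layers generated by commuting subgroups -/
lemma layC_cker {r : ℕ} {P : ∀ (S : Type) [Group S], Prop} {N : Subgroup G}
    (hP : ∀ (S : Type) [Group S] [Finite S], P S → ∀ h : S →* G, CRigid r h.range)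
    (hN : LayC P N) (hθ : CHeil θ) {s : ℕ} (hs : s ≤ r) (h1 : θ 1 = s) : ∀ y ∈ N, θ y = θ 1 := by
  classical
  obtain ⟨-, m, X, hX, rfl, hS⟩ := hN
  set N : Subgroup G := ⨆ i, X i with hNdef
  have hle : ∀ i, X i ≤ N := fun i => le_iSup X i
  have hnorm : ∀ i, N ≤ Subgroup.normalizer (X i : Set G) := by
    intro i
    refine iSup_le fun j => ?_
    by_cases hij : j = i
    · rw [hij]; exact Subgroup.le_normalizer
    · intro g hg
      rw [Subgroup.mem_normalizer_iff]
      intro x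
      have hc : ∀ y ∈ X i, g * y * g⁻¹ = y := by
        intro y hy
        rw [hX j i hij g hg y hy, mul_inv_cancel_right]
      constructor
      · intro hx
        rw [hc x hx]; exact hx
      · intro hx
        have h2 : g⁻¹ * (g * x * g⁻¹) * g = g * x * g⁻¹ := by
          have h3 := hX j i hij g hg _ hx
          rw [mul_assoc, ← h3, inv_mul_cancel_left]
        have h4 : g⁻¹ * (g * x * g⁻¹) * g = x := by group
        rw [h4] at h2
        rw [h2]; exact hx
  have hconst : ∀ i, ∀ y ∈ X i, θ y = θ 1 := by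
    intro i y hy
    obtain ⟨S, _, _, h, hPS, hr⟩ := hS i
    have h0 := hP S hPS h
    rw [hr] at h0
    have h2 := h0 _ (hθ.sub _) s hs (by simpa using h1) ⟨y, hy⟩
    simpa using h2
  have hθN := hθ.hb.comp N.subtype
  have key : ∀ y ∈ N, y ∈ N ∧ ∀ z ∈ N, θ (y * z) = θ z := by
    intro y hy
    refine Subgroup.iSup_induction X (C := fun y => y ∈ N ∧ ∀ z ∈ N, θ (y * z) = θ z) hy ?_ ?_ ?_
    · intro i y hy
      refine ⟨hle i hy, fun z hz => ?_⟩
      have : ((X i).subgroupOf N).Normal := Subgroup.normal_subgroupOf_of_le_normalizer (hnorm i)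
      have h2 := const_of_kernel hθN ((X i).subgroupOf N) (fun n hn => by
        rw [Subgroup.mem_subgroupOf] at hn
        simpa using hconst i _ hn) ⟨y, hle i hy⟩ (by rw [Subgroup.mem_subgroupOf]; exact hy)
        ⟨z, hz⟩
      simpa using h2
    · exact ⟨N.one_mem, fun z _ => by rw [one_mul]⟩
    · rintro a b ⟨haN, ha⟩ ⟨hbN, hb⟩
      exact ⟨N.mul_mem haN hbN, fun z hz => by
        rw [mul_assoc, ha _ (N.mul_mem hbN hz), hb _ hz]⟩
  intro y hy
  have := (key y hy).2 1 N.one_mem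
  simpa using this

/-- `A` is an abelian normal subgroup of `Q` such that every nontrivial linear character of `A` has
more than `r` conjugates under `Q`, or is quadratic and has more than `r / 2` conjugates. -/
def COrb (r : ℕ) {Q : Type} [Group Q] (A : Subgroup Q) : Prop :=
  A.Normal ∧ (∀ a ∈ A, ∀ b ∈ A, a * b = b * a) ∧ ∀ ψ : A →* ℂˣ, ψ ≠ 1 →
    r < Nat.card {ψ' : A →* ℂˣ // ∃ g : Q, ∀ a b : A, (b : Q) = g * a * g⁻¹ → ψ' a = ψ b} ∨
    ((∀ a, ψ a * ψ a = 1) ∧
      r < 2 * Nat.card {ψ' : A →* ℂˣ // ∃ g : Q, ∀ a b : A, (b : Q) = g * a * g⁻¹ → ψ' a = ψ b})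

lemma mult_count2 {A : Type} [CommGroup A] [Finite A] {η : A → ℂ} (hη : IsHeilbronn η) {r : ℕ}
    (hr : η 1 = r) (X : Finset (A →* ℂˣ))
    (hX : ∀ ψ ∈ X, ∃ k : ℤ, Even k ∧ k ≠ 0 ∧
      ∑ᶠ e : A, η e * (((ψ e)⁻¹ : ℂˣ) : ℂ) = (k : ℂ) * Nat.card A) : 2 * X.card ≤ r := by
  classical
  obtain ⟨ι, _, _, ψ, n, hdec, hm⟩ := decomp_mult hη
  have h1 := hdec 1
  simp only [map_one, Units.val_one, mul_one] at h1
  have h7 : r = ∑ i, n i := by
    have : (r : ℂ) = ((∑ i, n i : ℕ) : ℂ) := by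
      rw [← hr, h1]; push_cast; rfl
    exact_mod_cast this
  have hA : (Nat.card A : ℂ) ≠ 0 := by exact_mod_cast Nat.card_pos.ne'
  have h2 : ∀ χ ∈ X, 2 ≤ ∑ j, if ψ j = χ then n j else 0 := by
    intro χ hχ
    obtain ⟨k, hk, hk0, h3⟩ := hX χ hχ
    rw [hm, mul_comm] at h3
    have h4 := mul_right_cancel₀ hA h3
    have h5 : ((∑ j, if ψ j = χ then n j else 0 : ℕ) : ℤ) = k := by exact_mod_cast h4
    obtain ⟨l, hl⟩ := hk
    omega
  calc 2 * X.card = ∑ χ ∈ X, 2 := by rw [Finset.sum_const, smul_eq_mul, mul_comm]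
    _ ≤ ∑ χ ∈ X, ∑ j, (if ψ j = χ then n j else 0) := Finset.sum_le_sum h2
    _ = ∑ j, ∑ χ ∈ X, (if ψ j = χ then n j else 0) := Finset.sum_comm
    _ ≤ ∑ j, n j := by
      refine Finset.sum_le_sum fun j _ => ?_
      rw [Finset.sum_ite_eq]
      split_ifs <;> omega
    _ = r := h7.symm

lemma corb_ker {r : ℕ} {A : Subgroup G} (hA : COrb r A) (hθ : CHeil θ) {s : ℕ} (hs : s ≤ r)
    (h1 : θ 1 = s) : ∀ y ∈ A, θ y = θ 1 := by
  classical
  obtain ⟨hn, hc, ho⟩ := hA
  let _ : CommGroup A :=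
    { (inferInstance : Group A) with
      mul_comm := fun a b => Subtype.ext (hc a a.2 b b.2) }
  intro y hy
  by_contra hne
  have hη := hθ.hb.comp A.subtype
  obtain ⟨ψ, hψ1, hψ2⟩ := exists_constituent hη (a := ⟨y, hy⟩) (by
    change θ y ≠ θ 1
    exact hne)
  have hψ : ψ ≠ 1 := by
    rintro rfl
    exact hψ1 rfl
  let X : Set (A →* ℂˣ) := {ψ' | ∃ g : G, ∀ a b : A, (b : G) = g * a * g⁻¹ → ψ' a = ψ b}
  have h0 : Nat.card X ≠ 0 := by
    have h5 : Nat.card X = Nat.card {ψ' : A →* ℂˣ //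
        ∃ g : G, ∀ a b : A, (b : G) = g * a * g⁻¹ → ψ' a = ψ b} := rfl
    rcases ho ψ hψ with h2 | ⟨-, h2⟩ <;> omega
  have hX : X.Finite := Nat.finite_of_card_ne_zero h0
  have hmul : ∀ ψ' ∈ X, ∑ᶠ e : A, θ (A.subtype e) * (((ψ' e)⁻¹ : ℂˣ) : ℂ)
      = ∑ᶠ e : A, θ (A.subtype e) * (((ψ e)⁻¹ : ℂˣ) : ℂ) := by
    rintro ψ' ⟨g, hg⟩
    let c : A → A := fun a => ⟨g * a * g⁻¹, hn.conj_mem a a.2 g⟩
    have hcb : Function.Bijective c := by
      refine Finite.injective_iff_bijective.mp ?_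
      intro a b e
      have h4 : g * (a : G) * g⁻¹ = g * b * g⁻¹ := congrArg Subtype.val e
      exact Subtype.ext (mul_left_cancel (mul_right_cancel h4))
    exact mult_inv hθ.hb A.subtype c hcb (g := g) (fun a => rfl) ψ ψ' (fun a => hg a (c a) rfl)
  have h4 : hX.toFinset.card = Nat.card X := by
    rw [← Set.ncard_eq_toFinset_card X hX]
    rfl
  rcases ho ψ hψ with h2 | ⟨hq, h2⟩
  · have h3 := mult_count hη (r := s) (by simpa using h1) hX.toFinset (by
      intro ψ' hψ'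
      have h6 : ∑ᶠ e : A, θ (A.subtype e) * (((ψ' e)⁻¹ : ℂˣ) : ℂ) ≠ 0 := by
        rw [hmul _ (hX.mem_toFinset.mp hψ')]; exact hψ2
      exact h6)
    have h5 : Nat.card X = Nat.card {ψ' : A →* ℂˣ //
        ∃ g : G, ∀ a b : A, (b : G) = g * a * g⁻¹ → ψ' a = ψ b} := rfl
    omega
  · have hnu : nu (fun a : A => ((ψ a : ℂˣ) : ℂ)) = 1 := by
      unfold nu
      have h6 : ∀ a : A, ((ψ (a * a) : ℂˣ) : ℂ) = 1 := by
        intro a
        rw [map_mul, hq a, Units.val_one]
      have : Fintype A := Fintype.ofFinite A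
      rw [finsum_congr h6, finsum_eq_sum_of_fintype, Finset.sum_const, Finset.card_univ,
        nsmul_eq_mul, mul_one, ← Nat.card_eq_fintype_card]
      exact inv_mul_cancel₀ (by exact_mod_cast Nat.card_pos.ne')
    obtain ⟨k, hk, h6⟩ := hθ.ev A (fun a : A => ((ψ a : ℂˣ) : ℂ)) (lin_irr ψ) hnu
    have h7 : ∑ᶠ e : A, θ (A.subtype e) * (((ψ e)⁻¹ : ℂˣ) : ℂ) = (k : ℂ) * Nat.card A := by
      rw [← h6]
      refine finsum_congr fun e => ?_
      rw [map_inv]
      rfl
    have hk0 : k ≠ 0 := by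
      rintro rfl
      apply hψ2
      have h8 := h7
      rw [Int.cast_zero, zero_mul] at h8
      exact h8
    have h3 := mult_count2 hη (r := s) (by simpa using h1) hX.toFinset (by
      intro ψ' hψ'
      refine ⟨k, hk, hk0, ?_⟩
      rw [← h7, ← hmul _ (hX.mem_toFinset.mp hψ')])
    have h5 : Nat.card X = Nat.card {ψ' : A →* ℂˣ //
        ∃ g : G, ∀ a b : A, (b : G) = g * a * g⁻¹ → ψ' a = ψ b} := rfl
    omega

/-- `N` is a normal subgroup of `G` obtained from the trivial subgroup by finitely many steps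
`M ≤ N` where `N / M` satisfies `LayC P` or `COrb r` in `G / M`. -/
inductive BuiltZ (r : ℕ) (P : ∀ (S : Type) [Group S], Prop) {G : Type} [Group G] :
    Subgroup G → Prop
  | bot : BuiltZ r P ⊥
  | lay (M N : Subgroup G) [M.Normal] (hM : BuiltZ r P M) (hMN : M ≤ N)
      (h : LayC P (N.map (QuotientGroup.mk' M))) : BuiltZ r P N
  | orb (M N : Subgroup G) [M.Normal] (hM : BuiltZ r P M) (hMN : M ≤ N)
      (h : COrb r (N.map (QuotientGroup.mk' M))) : BuiltZ r P N

lemma BuiltZ.normal {r : ℕ} {P : ∀ (S : Type) [Group S], Prop} {G : Type} [Group G]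
    {N : Subgroup G} (hN : BuiltZ r P N) : N.Normal := by
  cases hN with
  | bot => exact Subgroup.normal_bot
  | lay M _ _ hMN h => exact normal_of_map hMN h.1
  | orb M _ _ hMN h => exact normal_of_map hMN h.1

/-- **Invariance.** -/
theorem builtZ_const {r : ℕ} {P : ∀ (S : Type) [Group S], Prop}
    (hP : ∀ (Q : Type) [Group Q] [Finite Q] (S : Type) [Group S] [Finite S], P S →
      ∀ h : S →* Q, CRigid r h.range) {N : Subgroup G} (hN : BuiltZ r P N)
    (hθ : CHeil θ) {s : ℕ} (hs : s ≤ r) (h1 : θ 1 = s) :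
    ∀ y ∈ N, ∀ x, θ (y * x) = θ x := by
  have step : ∀ (M N : Subgroup G) [M.Normal] (hMN : M ≤ N) (hNn : N.Normal)
      (ih : ∀ y ∈ M, ∀ x, θ (y * x) = θ x)
      (hc : ∀ η : G ⧸ M → ℂ, CHeil η → η 1 = s →
        ∀ y ∈ N.map (QuotientGroup.mk' M), η y = η 1),
      ∀ y ∈ N, ∀ x, θ (y * x) = θ x := by
    intro M N hMn hMN hNn ih hc
    have hinv : ∀ g : G, ∀ n ∈ M, θ (g * n) = θ g := by
      intro g n hn
      have h2 : g * n = (g * n * g⁻¹) * g := by group
      rw [h2, ih _ (hMn.conj_mem n hn g)]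
    have hd := hθ.descend M hinv
    have hmk : ∀ g : G, Pool.Agent.H302R2.descend M θ (QuotientGroup.mk' M g) = θ g :=
      fun g => descend_mk hinv g
    have h2 := hc _ hd (by
      have := hmk 1
      rw [map_one] at this
      rw [this, h1])
    refine const_of_kernel hθ.hb N fun y hy => ?_
    have h3 := h2 (QuotientGroup.mk' M y) ⟨y, hy, rfl⟩
    have h4 := hmk 1
    rw [map_one] at h4
    rw [← hmk y, h3, h4]
  induction hN with
  | bot =>
    intro y hy x
    rw [Subgroup.mem_bot] at hy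
    rw [hy, one_mul]
  | lay M N hM hMN h ih =>
    exact step M N hMN (normal_of_map hMN h.1) ih
      (fun η hη h1 => layC_cker (fun S _ _ hS f => hP _ S hS f) h hη hs h1)
  | orb M N hM hMN h ih =>
    exact step M N hMN (normal_of_map hMN h.1) ih
      (fun η hη h1 => corb_ker h hη hs h1)

end

end Pool.Agent.X21.Ce
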