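import Mathlib
import Pool.Agent.X21.Ce.B1

/-!
# Alternating groups at the central point
-/

set_option autoImplicit false
set_option linter.unusedSectionVars false

namespace Pool.Agent.X21.Ce

open Pool.Agent.H302R2 Pool.Agent.H302R5 Pool.Agent.H541R3.ART Pool.Agent.W446.AS Pool.Agent.X21.Sy
  Pool.Agent.TH820 Pool.Agent.W295.Cl Pool.Agent.W295.Sp Pool.Agent.H417R3.HB Pool.Agent.H302R10
  Equiv Equiv.Perm

/-- the homomorphism from the signs to the permutations of two points -/
def cc : ℤˣ →* Perm (Fin 2) :=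
  MonoidHom.mk' (fun u => if u = 1 then 1 else swap 0 1) (by decide)

lemma sign_cc (u : ℤˣ) : Perm.sign (cc u) = u := by
  revert u
  decide

/-- the symmetric group inside the alternating group on two more points -/
def jj (m : ℕ) : Perm (Fin m) →* alternatingGroup (Fin m ⊕ Fin 2) :=
  ((Perm.sumCongrHom (Fin m) (Fin 2)).comp
    ((MonoidHom.id _).prod (cc.comp Perm.sign))).codRestrict _ (fun σ => by
      rw [mem_alternatingGroup]
      change Perm.sign (Perm.sumCongr σ (cc (Perm.sign σ))) = 1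
      rw [Perm.sign_sumCongr, sign_cc]
      exact Int.units_mul_self _)

lemma jj_coe (m : ℕ) (σ : Perm (Fin m)) :
    ((jj m σ : alternatingGroup (Fin m ⊕ Fin 2)) : Perm (Fin m ⊕ Fin 2))
      = Perm.sumCongr σ (cc (Perm.sign σ)) := rfl

/-- images of alternating groups at the central point -/
theorem alt_crigid {m r : ℕ} (hm : 14 ≤ m) (hr : r < 2 * (m - 1)) (hr2 : m.Prime → r < 2 * (m - 2))
    {X : Type} [Group X] [Finite X] (F : alternatingGroup (Fin m ⊕ Fin 2) →* X)
    (hF : Function.Surjective F) : CRigid r X := by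
  classical
  intro θ hθ s hs h1
  obtain ⟨t, ht⟩ := hθ.even_deg h1
  let J : Perm (Fin m) →* X := F.comp (jj m)
  have hK : TotOrth J.range := (totOrth_fin m).image J.rangeRestrict J.rangeRestrict_surjective
  have h2 := hθ.half J.range hK
  have h3 := (h2.comp J.rangeRestrict).comp (alternatingGroup (Fin m)).subtype
  have h4 : ∀ σ : alternatingGroup (Fin m), θ (J σ) = θ 1 := by
    intro σ
    have h5 := alt_sharp (r := t) (by rw [Fintype.card_fin]; exact hm) h3 (by
      have : θ 1 / 2 = t := by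
        rw [h1, ht]; push_cast; ring
      simpa using this) (by
      rw [Fintype.card_fin]
      by_cases hp : m.Prime
      · right; have := hr2 hp; omega
      · left; exact ⟨hp, by omega⟩) σ
    simp only [map_one] at h5
    have h6 : θ (J σ) / 2 = θ 1 / 2 := h5
    linear_combination 2 * h6
  have hη := hθ.hb.comp F
  let a : Fin m := ⟨0, by omega⟩
  let b : Fin m := ⟨1, by omega⟩
  let c : Fin m := ⟨2, by omega⟩
  let d : Fin m := ⟨3, by omega⟩
  have hab : a ≠ b := by simp [a, b]
  have hcd : c ≠ d := by simp [c, d]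
  have hac : a ≠ c := by simp [a, c]
  have had : a ≠ d := by simp [a, d]
  have hbc : b ≠ c := by simp [b, c]
  have hbd : b ≠ d := by simp [b, d]
  let σ : Perm (Fin m) := swap a b * swap c d
  have hσs : Perm.sign σ = 1 := by
    simp only [σ, map_mul, sign_swap hab, sign_swap hcd]
    rfl
  have hσ2 : σ * σ = 1 := by
    have hdis : Disjoint (swap a b) (swap c d) := by
      rw [disjoint_iff_disjoint_support, support_swap hab, support_swap hcd]
      simp only [Finset.disjoint_insert_left, Finset.mem_insert, Finset.mem_singleton,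
        Finset.disjoint_singleton_left, not_or]
      exact ⟨⟨hac, had⟩, ⟨hbc, hbd⟩⟩
    have hcm := hdis.commute.eq
    calc σ * σ = swap a b * (swap c d * swap a b) * swap c d := by simp only [σ, mul_assoc]
      _ = swap a b * (swap a b * swap c d) * swap c d := by rw [hcm]
      _ = (swap a b * swap a b) * (swap c d * swap c d) := by simp only [mul_assoc]
      _ = 1 := by rw [swap_mul_self, swap_mul_self, one_mul]
  have hσ1 : σ ≠ 1 := by
    intro h
    have h5 : σ a = a := by rw [h]; rfl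
    simp only [σ, Perm.mul_apply, swap_apply_of_ne_of_ne hac had, swap_apply_left] at h5
    exact hab h5.symm
  have hinK : InK (fun x => θ (F x)) (jj m σ : Perm (Fin m ⊕ Fin 2)) := by
    refine ⟨(jj m σ).2, ?_⟩
    have h5 := h4 ⟨σ, mem_alternatingGroup.mpr hσs⟩
    change θ (F (jj m σ)) = θ (F 1)
    rw [map_one]
    exact h5
  have hx2 : (jj m σ : Perm (Fin m ⊕ Fin 2)) * (jj m σ : Perm (Fin m ⊕ Fin 2)) = 1 := by
    rw [← Subgroup.coe_mul, ← map_mul, hσ2, map_one]
    rfl
  have hx1 : (jj m σ : Perm (Fin m ⊕ Fin 2)) ≠ 1 := by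
    intro h
    apply hσ1
    ext i
    have h5 : (jj m σ : Perm (Fin m ⊕ Fin 2)) (Sum.inl i) = Sum.inl i := by rw [h]; rfl
    rw [jj_coe] at h5
    have h6 : Sum.inl (σ i) = (Sum.inl i : Fin m ⊕ Fin 2) := h5
    rw [Sum.inl.inj h6]
    rfl
  have hD : HasDoubleSwaps (fun x => θ (F x)) := by
    intro a b c d hab hac had hbc hbd hcd
    exact hinK.double_swap hη hx2 hx1 hab hac had hbc hbd hcd
  intro x
  obtain ⟨g, rfl⟩ := hF x
  obtain ⟨h5, h6⟩ := InK.all hη hD (by simp; omega) (g := (g : Perm (Fin m ⊕ Fin 2)))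
    (mem_alternatingGroup.mp g.2)
  have h7 : θ (F g) = θ (F 1) := h6
  rw [h7, map_one]

/-- `S` is isomorphic to `A_n` for some `n ≥ 16` with `r < 2 (n - 3)`, and with `r < 2 (n - 4)` if
`n - 2` is prime. -/
def CAlt (r : ℕ) (S : Type) [Group S] : Prop :=
  ∃ n : ℕ, 16 ≤ n ∧ r < 2 * (n - 3) ∧ ((n - 2).Prime → r < 2 * (n - 4)) ∧
    Nonempty (S ≃* alternatingGroup (Fin n))

/-- the factors at the central point -/
def CFac (r : ℕ) (S : Type) [Group S] : Prop :=
  CAlt r S ∨ AltOr r S ∨ (TotOrth S ∧ AltOr (r / 2) S)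

lemma cfac_crigid {r : ℕ} {S : Type} [Group S] [Finite S] (hS : CFac r S) {Q : Type} [Group Q]
    [Finite Q] (h : S →* Q) : CRigid r h.range := by
  classical
  rcases hS with ⟨n, hn, h1, h2, ⟨e⟩⟩ | hS | ⟨hT, hS⟩
  · obtain ⟨m, rfl⟩ : ∃ m, n = m + 2 := ⟨n - 2, by omega⟩
    have e1 : alternatingGroup (Fin m ⊕ Fin 2) ≃* alternatingGroup (Fin (m + 2)) :=
      Equiv.altCongrHom finSumFinEquiv
    let F : alternatingGroup (Fin m ⊕ Fin 2) →* h.range :=
      h.rangeRestrict.comp (e1.trans e.symm).toMonoidHom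
    have hF : Function.Surjective F :=
      h.rangeRestrict_surjective.comp (e1.trans e.symm).surjective
    exact alt_crigid (m := m) (by omega) (by omega) (fun hp => by
      have := h2 (by simpa using hp)
      omega) F hF
  · have h2 : Rigid r h.range :=
      rigid_image h.rangeRestrict h.rangeRestrict_surjective (AltOr.facO hS).rigid
    intro θ hθ s hs h1 x
    exact h2 θ hθ.hb s hs h1 x
  · have h2 : Rigid (r / 2) h.range :=
      rigid_image h.rangeRestrict h.rangeRestrict_surjective (AltOr.facO hS).rigid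
    intro θ hθ s hs h1 x
    obtain ⟨t, ht⟩ := hθ.even_deg h1
    have h3 := hθ.half_top (hT.image h.rangeRestrict h.rangeRestrict_surjective)
    have h4 := h2 _ h3 t (by omega) (by rw [h1, ht]; push_cast; ring) x
    have h5 : θ x / 2 = θ 1 / 2 := h4
    linear_combination 2 * h5

section gen

variable {G : Type} [Group G] [Finite G]

/-- **Layers at the central point** -/
theorem central_layers (A : CentralData G) {r : ℕ}
    (hr : meromorphicOrderAt (A.Lin ⊥ 1) (1 / 2) = (r : WithTop ℤ)) (N : Subgroup G)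
    (hN : BuiltZ r (fun S [Group S] => CFac r S) N) :
    Even r ∧ (∀ χ ∈ Irr G, (∃ n ∈ N, χ n ≠ χ 1) → meromorphicOrderAt (A.L χ) (1 / 2) = 0) ∧
    ((∀ χ ∈ Irr G, (∀ n ∈ N, χ n = χ 1) → IsMonomialChar χ) →
      ∀ χ ∈ Irr G, 0 ≤ meromorphicOrderAt (A.L χ) (1 / 2)) := by
  classical
  have : Fintype G := Fintype.ofFinite G
  have h1 : A.th 1 = r := A.toArtinData.theta_one hr
  have hNn : N.Normal := hN.normal
  have hcos := builtZ_const (fun Q _ _ S _ _ hS h => cfac_crigid hS h) hN A.cheil le_rfl h1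
  have hz : ∀ χ ∈ Irr G, (∃ n ∈ N, χ n ≠ χ 1) → meromorphicOrderAt (A.L χ) (1 / 2) = 0 := by
    rintro χ hχ ⟨n, hn, hn1⟩
    have h3 := pair_zero hχ N hcos hn hn1
    have h4 := A.toArtinData.order_eq hχ (k := 0) (by rw [h3]; simp)
    exact_mod_cast h4
  refine ⟨A.cheil.even_deg h1, hz, fun hmon χ hχ => ?_⟩
  by_cases h5 : ∃ n ∈ N, χ n ≠ χ 1
  · exact (hz χ hχ h5).ge
  · push Not at h5
    obtain ⟨k, hk⟩ := pair_monomial A.hb (hmon χ hχ h5)
    have h3 := A.toArtinData.order_eq hχ (k := (k : ℤ)) (by rw [hk]; push_cast; rfl)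
    rw [h3]
    exact_mod_cast Int.natCast_nonneg k

end gen

end Pool.Agent.X21.Ce
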