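import Mathlib
import Pool.Agent.X21.Ce.B2
import Pool.Agent.X21.Ce.A8
import Pool.Agent.TH820.DedN

/-!
# Intermediate fields and sharpness at the central point
-/

set_option autoImplicit false
set_option linter.unusedSectionVars false

namespace Pool.Agent.X21.Ce

open Pool.Agent.H302R2 Pool.Agent.H302R5 Pool.Agent.H541R3.ART Pool.Agent.W446.AS Pool.Agent.X21.Sy
  Pool.Agent.X21.Qd
  Pool.Agent.TH820 Pool.Agent.W295.Cl Pool.Agent.W295.Sp Pool.Agent.H417R3.HB Equiv Equiv.Perm

section gen

variable {G : Type} [Group G] [Finite G]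

/-- characters of subgroups which are nontrivial on `N` -/
theorem central_layers_sub (A : CentralData G) {r : ℕ}
    (hr : meromorphicOrderAt (A.Lin ⊥ 1) (1 / 2) = (r : WithTop ℤ)) (N : Subgroup G)
    (hN : BuiltZ r (fun S [Group S] => CFac r S) N) (U : Subgroup G) :
    (∀ η ∈ Irr U, (∃ u : U, (u : G) ∈ N ∧ η u ≠ η 1) → ∀ F : ℂ → ℂ,
      IsRel A.toArtinData U η F → meromorphicOrderAt F (1 / 2) = 0) ∧
    meromorphicOrderAt (A.Lin U 1) (1 / 2) = meromorphicOrderAt (A.Lin (U ⊔ N) 1) (1 / 2) := by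
  classical
  have : Fintype G := Fintype.ofFinite G
  have : Fintype U := Fintype.ofFinite U
  have h1 : A.th 1 = r := A.toArtinData.theta_one hr
  have hNn : N.Normal := hN.normal
  have hcos := builtZ_const (fun Q _ _ S _ _ hS h => cfac_crigid hS h) hN A.cheil le_rfl h1
  constructor
  · rintro η hη ⟨u, hu, hu1⟩ F hF
    obtain ⟨k, hk, hk2⟩ := exists_order A.toArtinData U hη
    have h3 := pair_zero (θ := fun x : U => A.th x) hη (N.subgroupOf U) (fun n hn x => by
      rw [Subgroup.mem_subgroupOf] at hn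
      exact hcos _ hn _) (x := u) (by rw [Subgroup.mem_subgroupOf]; exact hu) hu1
    have h4 : (k : ℂ) * Nat.card U = 0 := by
      rw [← hk]; exact h3
    have hU : (Nat.card U : ℂ) ≠ 0 := by exact_mod_cast Nat.card_pos.ne'
    have h5 : k = 0 := by exact_mod_cast (mul_eq_zero.mp h4).resolve_right hU
    rw [hk2 F hF, h5]
    rfl
  · have hNr : meromorphicOrderAt (A.Lin N 1) (1 / 2) = (r : WithTop ℤ) := by
      obtain ⟨a, ha⟩ := A.hb.mult N 1
      rw [order_of_multQ A.toArtinData N 1 ha]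
      have : Fintype N := Fintype.ofFinite N
      have h6 : ∀ x : N, A.th x * ((((1 : N →* ℂˣ) x)⁻¹ : ℂˣ) : ℂ) = r := by
        intro x
        have h7 := hcos x x.2 1
        rw [mul_one, h1] at h7
        rw [h7]
        simp
      rw [finsum_congr h6, finsum_eq_sum_of_fintype, Finset.sum_const, Finset.card_univ,
        nsmul_eq_mul, ← Nat.card_eq_fintype_card, mul_comm] at ha
      have hN0 : (Nat.card N : ℂ) ≠ 0 := by exact_mod_cast Nat.card_pos.ne'
      have h8 := mul_right_cancel₀ hN0 ha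
      have h9 : r = a := by exact_mod_cast h8
      rw [h9]
    exact ded_sup A.toArtinData hr N hNr U 1 (fun _ _ => rfl)

/-- some nontrivial character has nonzero order -/
lemma exists_ne_order {s₀ : ℂ} (A : ArtinData G s₀) {g : G}
    (hg : (theta A.ord : G → ℂ) g ≠ (theta A.ord : G → ℂ) 1) :
    ∃ χ ∈ Irr G, χ g ≠ χ 1 ∧ meromorphicOrderAt (A.L χ) s₀ ≠ 0 := by
  classical
  by_contra hcon
  push Not at hcon
  apply hg
  unfold theta
  refine Finset.sum_congr rfl fun χ hχ => ?_
  by_cases h : χ g = χ 1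
  · rw [h]
  · have h1 := hcon χ (mem_irrF.mp hχ) h
    rw [← A.coe_ord (mem_irrF.mp hχ)] at h1
    have h2 : A.ord χ = 0 := by exact_mod_cast h1
    rw [h2]
    simp

/-- doubled examples -/
lemma double_example {θ : G → ℂ} (h1 : IsHeilbronn θ) (h2 : Virt θ) {d : ℕ} (hd : θ 1 = d) {g : G}
    (hg : θ g ≠ θ 1) : ∃ C : CentralData G,
      meromorphicOrderAt (C.Lin ⊥ 1) (1 / 2) = ((2 * d : ℕ) : WithTop ℤ) ∧
      ∃ χ ∈ Irr G, χ g ≠ χ 1 ∧ meromorphicOrderAt (C.L χ) (1 / 2) ≠ 0 := by
  classical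
  have : Fintype G := Fintype.ofFinite G
  obtain ⟨B, hB1, hB2⟩ := artin_of_virt h1 h2 (1 / 2 : ℂ)
  obtain ⟨C, hC1, hC2⟩ := square B
  have hth : (theta B.ord : G → ℂ) = θ := by
    funext x
    rw [theta, h2.expand x]
    refine Finset.sum_congr rfl fun χ hχ => ?_
    obtain ⟨k, hk⟩ := h2.pr_int (mem_irrF.mp hχ)
    have h3 := hB1 χ (mem_irrF.mp hχ) k hk
    rw [← B.coe_ord (mem_irrF.mp hχ)] at h3
    have h4 : B.ord χ = k := WithTop.coe_injective h3
    rw [hk, h4]
  obtain ⟨χ, hχ, hχ1, hχ2⟩ := exists_ne_order B (g := g) (by rw [hth]; exact hg)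
  refine ⟨C, ?_, χ, hχ, hχ1, ?_⟩
  · rw [hC2, hB2 d hd, two_mul]
    push_cast
    rfl
  · rw [hC1 χ hχ]
    rw [← B.coe_ord hχ] at hχ2 ⊢
    intro h5
    apply hχ2
    rw [← WithTop.coe_add] at h5
    have h6 : B.ord χ + B.ord χ = 0 := by exact_mod_cast h5
    have h7 : B.ord χ = 0 := by omega
    rw [h7]
    rfl

end gen

section alt

variable {α : Type} [Fintype α] [DecidableEq α]

lemma fx_virt : Virt (fun g : Perm α => (fx g : ℂ) - 1) := by
  classical
  have h1 : Virt (fun _ : Perm α => (1 : ℂ)) := by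
    have := char_mem (G := Perm α) _ (linRep (1 : Perm α →* ℂˣ)) rfl
    have h2 : (linRep (1 : Perm α →* ℂˣ)).character = fun _ => (1 : ℂ) := by
      funext g
      rw [linRep_char]
      simp
    rw [h2] at this
    exact this
  have h2 : Virt (fun g : Perm α => (fx g : ℂ)) := by
    have := char_mem (G := Perm α) _ (permRep α) rfl
    have h2 : (permRep α).character = fun g => (fx g : ℂ) := funext permRep_char
    rw [h2] at this
    exact this
  exact sub_mem (S := AddSubgroup (Perm α → ℂ)) h2 h1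

/-- the permutation character minus one, doubled -/
theorem alt_example (h3 : 4 ≤ Fintype.card α) : ∃ C : CentralData (alternatingGroup α),
      meromorphicOrderAt (C.Lin ⊥ 1) (1 / 2) = ((2 * (Fintype.card α - 1) : ℕ) : WithTop ℤ) ∧
      ∃ χ ∈ Irr (alternatingGroup α), (∃ g, χ g ≠ χ 1) ∧
        meromorphicOrderAt (C.L χ) (1 / 2) ≠ 0 := by
  classical
  have hθ : IsHeilbronn (fun g : Perm α => (fx g : ℂ) - 1) := by
    refine ⟨fun g h => by rw [fx_conj], fun H l => ?_⟩
    have : Fintype H := Fintype.ofFinite H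
    rw [finsum_eq_sum_of_fintype]
    obtain ⟨m, hm⟩ := fx_mult H l
    simp only [sub_mul, Finset.sum_sub_distrib, one_mul]
    rw [hm]
    by_cases hl : l = 1
    · subst hl
      have hsum : ∑ h : H, ((((1 : H →* ℂˣ) h)⁻¹ : ℂˣ) : ℂ) = (Nat.card H : ℂ) := by
        simp [Nat.card_eq_fintype_card]
      have hm1 : m ≠ 0 := by
        intro h0
        rw [h0] at hm
        have h7 : ∑ h : H, fx (h : Perm α) = 0 := by
          have : ((∑ h : H, fx (h : Perm α) : ℕ) : ℂ) = 0 := by
            push_cast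
            simpa using hm
          exact_mod_cast this
        have h8 := (Finset.sum_eq_zero_iff.mp h7) 1 (Finset.mem_univ _)
        rw [Subgroup.coe_one, fx_one] at h8
        omega
      refine ⟨m - 1, ?_⟩
      rw [hsum]
      push_cast [Nat.cast_sub (show 1 ≤ m by omega)]
      ring
    · rw [sum_inv_hom hl]
      exact ⟨m, by ring⟩
  have : Nontrivial (alternatingGroup α) := by
    exact alternatingGroup.nontrivial_of_three_le_card (by
      rw [Nat.card_eq_fintype_card]; omega)
  obtain ⟨g, hg⟩ := exists_ne (1 : alternatingGroup α)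
  obtain ⟨C, hC, χ, hχ, h4, h5⟩ := double_example (G := alternatingGroup α)
    (hθ.comp (alternatingGroup α).subtype) (fx_virt.comp (alternatingGroup α).subtype)
    (d := Fintype.card α - 1) (by
      rw [map_one, fx_one]
      push_cast [Nat.cast_sub (show 1 ≤ Fintype.card α by omega)]
      ring) (g := g) (by
      rw [map_one, fx_one]
      intro h
      have h1 : (fx (g : Perm α) : ℂ) = (Fintype.card α : ℂ) := by
        change ((fx (g : Perm α) : ℂ) - 1 = _) at h
        linear_combination h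
      have h2 : fx (g : Perm α) = Fintype.card α := by exact_mod_cast h1
      apply hg
      rw [fx, Finset.card_eq_iff_eq_univ] at h2
      ext x
      have := Finset.mem_univ x
      rw [← h2, Finset.mem_filter] at this
      simpa using this.2)
  exact ⟨C, hC, χ, hχ, ⟨g, h4⟩, h5⟩

/-- prime degree -/
theorem alt_example_prime {p : ℕ} [hp : Fact p.Prime] (hα : Fintype.card α = p) (h5 : 5 ≤ p) :
    ∃ C : CentralData (alternatingGroup α),
      meromorphicOrderAt (C.Lin ⊥ 1) (1 / 2) = ((2 * (p - 2) : ℕ) : WithTop ℤ) ∧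
      ∃ χ ∈ Irr (alternatingGroup α), (∃ g, χ g ≠ χ 1) ∧
        meromorphicOrderAt (C.L χ) (1 / 2) ≠ 0 := by
  classical
  have hθ := (bt_heilbronn (α := α) hα (by omega)).comp (alternatingGroup α).subtype
  have h1 : bt p ((alternatingGroup α).subtype 1) = (p : ℂ) - 2 := by
    rw [map_one, bt_one hα]
  have h2 := (bt_virt (α := α) hα).comp (alternatingGroup α).subtype
  have h3 : ∃ g : alternatingGroup α, bt p ((alternatingGroup α).subtype g)
      ≠ bt p ((alternatingGroup α).subtype 1) := by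
    obtain ⟨c, hc⟩ := exists_c (α := α) hα
    obtain ⟨t, ht1, e, he⟩ := u_facts hα h5 hc
    refine ⟨⟨c * (t * c⁻¹ * t⁻¹), ?_⟩, ?_⟩
    · rw [mem_alternatingGroup]
      simp only [map_mul, map_inv]
      rcases Int.units_eq_one_or (Perm.sign c) with h | h <;>
        rcases Int.units_eq_one_or (Perm.sign t) with h' | h' <;> rw [h, h'] <;> decide
    · rw [h1]
      change bt p (c * (t * c⁻¹ * t⁻¹)) ≠ _
      intro h1
      rw [bt, if_neg (fun h => no_fix hα h e he)] at h1
      have h2 : (fx (c * (t * c⁻¹ * t⁻¹)) : ℂ) = (p : ℂ) := by linear_combination h1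
      have h3 : fx (c * (t * c⁻¹ * t⁻¹)) = p := by exact_mod_cast h2
      apply ht1
      rw [fx, ← hα, Finset.card_eq_iff_eq_univ] at h3
      ext x
      have := Finset.mem_univ x
      rw [← h3, Finset.mem_filter] at this
      exact this.2
  obtain ⟨g, hg⟩ := h3
  obtain ⟨C, hC, χ, hχ, h4, h5⟩ := double_example hθ h2 (d := p - 2) (by
    rw [h1]
    push_cast [Nat.cast_sub (show 2 ≤ p by omega)]
    ring) hg
  exact ⟨C, hC, χ, hχ, ⟨g, h4⟩, h5⟩

/-- alternating groups -/
theorem central_alt {n : ℕ} (hn : 16 ≤ n) (A : CentralData (alternatingGroup (Fin n))) {r : ℕ}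
    (hr : meromorphicOrderAt (A.Lin ⊥ 1) (1 / 2) = (r : WithTop ℤ))
    (hr1 : r < 2 * (n - 3)) (hr2 : (n - 2).Prime → r < 2 * (n - 4)) :
    Even r ∧ ∀ χ ∈ Irr (alternatingGroup (Fin n)),
      ((∃ g, χ g ≠ χ 1) → meromorphicOrderAt (A.L χ) (1 / 2) = 0) ∧
      ((∀ g, χ g = χ 1) → meromorphicOrderAt (A.L χ) (1 / 2) = (r : WithTop ℤ)) := by
  classical
  have hB : BuiltZ r (fun S [Group S] => CFac r S) (⊤ : Subgroup (alternatingGroup (Fin n))) := by
    refine BuiltZ.lay ⊥ _ BuiltZ.bot bot_le ?_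
    refine ⟨?_, 1, fun _ => (⊤ : Subgroup (alternatingGroup (Fin n))).map (QuotientGroup.mk' ⊥),
      ?_, ?_, ?_⟩
    · exact Subgroup.Normal.map inferInstance _ (QuotientGroup.mk'_surjective _)
    · intro i j hij
      exact absurd (Subsingleton.elim i j) hij
    · rw [ciSup_const]
    · intro i
      refine ⟨alternatingGroup (Fin n), inferInstance, inferInstance,
        QuotientGroup.mk' (⊥ : Subgroup (alternatingGroup (Fin n))),
        Or.inl ⟨n, hn, hr1, hr2, ⟨MulEquiv.refl _⟩⟩, ?_⟩
      rw [MonoidHom.range_eq_map]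
  obtain ⟨h1, h2, -⟩ := central_layers A hr ⊤ hB
  refine ⟨h1, fun χ hχ => ⟨?_, ?_⟩⟩
  · rintro ⟨g, hg⟩
    exact h2 χ hχ ⟨g, Subgroup.mem_top g, hg⟩
  · intro ht
    have : Fintype (alternatingGroup (Fin n)) := Fintype.ofFinite _
    have h3 : A.th 1 = r := A.toArtinData.theta_one hr
    have hcos := builtZ_const (fun Q _ _ S _ _ hS h => cfac_crigid hS h) hB A.cheil le_rfl h3
    -- `χ = χ 1`, so `χ 1 = 1`
    have h4 : χ 1 = 1 := by
      have h8 := pr_self hχ
      rw [pr_eq] at h8
      obtain ⟨d, ρ, hρ, rfl⟩ := id hχ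
      have h9 : ρ.character 1 = (d : ℂ) := by
        rw [Representation.char_one]
        simp
      rw [Finset.sum_congr rfl (fun g _ => by rw [ht g, ht g⁻¹]), Finset.sum_const,
        Finset.card_univ, nsmul_eq_mul, ← Nat.card_eq_fintype_card, h9] at h8
      have hc0 : (Nat.card (alternatingGroup (Fin n)) : ℂ) ≠ 0 := by
        exact_mod_cast Nat.card_pos.ne'
      have h10 : (d : ℂ) * d = 1 := by
        field_simp at h8
        linear_combination h8
      have h11 : d * d = 1 := by exact_mod_cast h10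
      have h12 : d = 1 := Nat.eq_one_of_mul_eq_one_right h11
      rw [h9, h12, Nat.cast_one]
    have h5 : ∑ g : alternatingGroup (Fin n), A.th g * χ g⁻¹
        = ((r : ℤ) : ℂ) * Nat.card (alternatingGroup (Fin n)) := by
      have h6 : ∀ g : alternatingGroup (Fin n), A.th g * χ g⁻¹ = r := by
        intro g
        have h7 := hcos g (Subgroup.mem_top g) 1
        rw [mul_one, h3] at h7
        rw [h7, ht, h4, mul_one]
      rw [Finset.sum_congr rfl (fun g _ => h6 g), Finset.sum_const, Finset.card_univ,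
        nsmul_eq_mul, Nat.card_eq_fintype_card, mul_comm]
      push_cast
      rfl
    have h6 := A.toArtinData.order_eq hχ h5
    rw [h6]
    rfl

end alt

end Pool.Agent.X21.Ce
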