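import Mathlib
import Pool.Agent.X21.Ce.A7
import Pool.Agent.X21.ArtSub

/-!
# Functional equations of all L-functions: real Heilbronn functions
-/

set_option autoImplicit false
set_option linter.unusedSectionVars false

namespace Pool.Agent.X21.Ce

open Pool.Agent.H302R2 Pool.Agent.H541R3.ART Pool.Agent.H302R5 Pool.Agent.W446.AS
  Pool.Agent.X21.Sy Filter Topology

/-- `CentralData` together with the functional equations of the L-functions `L χ` of all
irreducible characters of `G`: the function `L(s, χ)` is, near `1 / 2`, the product of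
`L(1 - s, χ̄)` with a function which is analytic and not zero at `1 / 2` (a quotient of Gamma
factors and a power, times the root number). -/
structure RealData (G : Type) [Group G] extends CentralData G where
  refl : ∀ χ ∈ Irr G, ∃ γ : ℂ → ℂ, AnalyticAt ℂ γ (1 / 2) ∧ γ (1 / 2) ≠ 0 ∧
    ∀ᶠ s in 𝓝[≠] (1 / 2 : ℂ), L χ s = γ s * L (fun g => χ g⁻¹) (1 - s)

lemma order_reflect {f : ℂ → ℂ} {k : ℤ} (hf : MeromorphicAt f (1 / 2))
    (hk : meromorphicOrderAt f (1 / 2) = (k : WithTop ℤ)) :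
    MeromorphicAt (fun s => f (1 - s)) (1 / 2) ∧
      meromorphicOrderAt (fun s => f (1 - s)) (1 / 2) = (k : WithTop ℤ) := by
  obtain ⟨g, hg, hg0, hge⟩ := (meromorphicOrderAt_eq_int_iff hf).mp hk
  have h1 := tendsto_refl.eventually hge
  have h2 : (1 : ℂ) - 1 / 2 = 1 / 2 := by norm_num
  have hg' : AnalyticAt ℂ (fun s : ℂ => (-1 : ℂ) ^ k * g (1 - s)) (1 / 2) := by
    refine analyticAt_const.mul ?_
    have h3 : AnalyticAt ℂ (fun s : ℂ => 1 - s) (1 / 2) := analyticAt_const.sub analyticAt_id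
    exact AnalyticAt.fun_comp (by rw [h2]; exact hg) h3
  have h4 : ∀ᶠ s in 𝓝[≠] (1 / 2 : ℂ),
      f (1 - s) = (s - 1 / 2) ^ k • ((-1 : ℂ) ^ k * g (1 - s)) := by
    filter_upwards [h1] with s hs
    rw [hs]
    have e1 : (1 : ℂ) - s - 1 / 2 = (-1) * (s - 1 / 2) := by ring
    rw [e1, mul_zpow]
    simp only [smul_eq_mul]
    ring
  have h5 : MeromorphicAt (fun s => f (1 - s)) (1 / 2) := by
    have h6 : MeromorphicAt (fun s : ℂ => (s - 1 / 2) ^ k • ((-1 : ℂ) ^ k * g (1 - s))) (1 / 2) := by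
      simp only [smul_eq_mul]
      have h7 : MeromorphicAt (fun s : ℂ => (s - 1 / 2) ^ k) (1 / 2) :=
        ((MeromorphicAt.id _).sub (MeromorphicAt.const _ _)).zpow k
      exact h7.mul hg'.meromorphicAt
    refine h6.congr ?_
    filter_upwards [h4] with s hs
    exact hs.symm
  refine ⟨h5, (meromorphicOrderAt_eq_int_iff h5).mpr ⟨_, hg', ?_, h4⟩⟩
  rw [h2]
  exact mul_ne_zero (zpow_ne_zero _ (by norm_num)) hg0

section

variable {G : Type} [Group G] [Finite G]

lemma irr_inv {χ : G → ℂ} (hχ : χ ∈ Irr G) : (fun g => χ g⁻¹) ∈ Irr G := by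
  obtain ⟨V, _, _, _, ρ, hρ, rfl⟩ := ic_of_irr hχ
  refine irr_of_ic ⟨Module.Dual ℂ V, inferInstance, inferInstance, inferInstance, ρ.dual, ?_, ?_⟩
  · have hn : Nontrivial V := by
      by_contra hcon
      rw [not_nontrivial_iff_subsingleton] at hcon
      have h0 := hρ.toNontrivial
      obtain ⟨a, b, hab⟩ := h0
      apply hab
      apply Subrepresentation.toSubmodule_injective
      exact Subsingleton.elim _ _
    have hn' : Nontrivial (Module.Dual ℂ V) := inferInstance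
    have hnt : Nontrivial (Subrepresentation ρ.dual) := by
      refine ⟨⊥, ⊤, fun h => ?_⟩
      have h1 : (⊥ : Submodule ℂ (Module.Dual ℂ V)) = ⊤ := congrArg Subrepresentation.toSubmodule h
      exact bot_ne_top h1
    refine { toNontrivial := hnt, eq_bot_or_eq_top := fun σ => ?_ }
    let τ : Subrepresentation ρ := ⟨σ.toSubmodule.dualCoannihilator, by
      intro g v hv
      rw [Submodule.mem_dualCoannihilator] at hv ⊢
      intro f hf
      have h1 := hv _ (σ.apply_mem_toSubmodule g⁻¹ hf)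
      rw [Representation.dual_apply, inv_inv] at h1
      exact h1⟩
    have h2 : σ.toSubmodule = τ.toSubmodule.dualAnnihilator :=
      (Subspace.dualCoannihilator_dualAnnihilator_eq (W := σ.toSubmodule)).symm
    rcases hρ.eq_bot_or_eq_top τ with h | h
    · right
      apply Subrepresentation.toSubmodule_injective
      rw [h2, h]
      exact Submodule.dualAnnihilator_bot
    · left
      apply Subrepresentation.toSubmodule_injective
      rw [h2, h]
      exact Submodule.dualAnnihilator_top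
  · funext g
    exact (Representation.char_dual ρ g).symm

namespace RealData

variable (A : RealData G)

lemma ord_inv {χ : G → ℂ} (hχ : χ ∈ Irr G) :
    A.toArtinData.ord (fun g => χ g⁻¹) = A.toArtinData.ord χ := by
  obtain ⟨γ, hγ, hγ0, h1⟩ := A.refl χ hχ
  have h2 := A.mero _ (irr_inv hχ)
  have h3 := A.toArtinData.coe_ord (irr_inv hχ)
  obtain ⟨h4, h5⟩ := order_reflect h2.1 h3.symm
  have h6 := meromorphicOrderAt_congr h1
  have h7 : meromorphicOrderAt (fun s => γ s * A.L (fun g => χ g⁻¹) (1 - s)) (1 / 2)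
      = meromorphicOrderAt γ (1 / 2)
        + meromorphicOrderAt (fun s => A.L (fun g => χ g⁻¹) (1 - s)) (1 / 2) :=
    meromorphicOrderAt_mul hγ.meromorphicAt h4
  have h8 : meromorphicOrderAt γ (1 / 2) = 0 := by
    rw [hγ.meromorphicOrderAt_eq, hγ.analyticOrderAt_eq_zero.mpr hγ0]
    rfl
  rw [h7, h8, zero_add, h5, ← A.toArtinData.coe_ord hχ] at h6
  exact (WithTop.coe_injective h6).symm

lemma th_inv (g : G) : A.th g⁻¹ = A.th g := by
  classical
  unfold CentralData.th theta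
  refine Finset.sum_bij' (fun χ _ => fun g => χ g⁻¹) (fun χ _ => fun g => χ g⁻¹) ?_ ?_ ?_ ?_ ?_
  · intro χ hχ
    exact mem_irrF.mpr (irr_inv (mem_irrF.mp hχ))
  · intro χ hχ
    exact mem_irrF.mpr (irr_inv (mem_irrF.mp hχ))
  · intro χ _
    funext x
    simp
  · intro χ _
    funext x
    simp
  · intro χ hχ
    rw [A.ord_inv (mem_irrF.mp hχ)]

end RealData

/-- the multiplicities of a linear character and of its inverse -/
lemma two_mul_le {θ : G → ℂ} (hθ : IsHeilbronn θ) (hv : Virt θ) (hr : ∀ g, θ g⁻¹ = θ g)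
    {Z : Subgroup G} (hZ : Z ≤ Subgroup.center G) {μ : Z →* ℂˣ} (hμ : ∃ z, μ z ≠ μ z⁻¹) {s a : ℕ}
    (hs : θ 1 = s) (ha : lam Z μ θ 1 = a) : 2 * a ≤ s := by
  classical
  have fZ : Fintype Z := Fintype.ofFinite Z
  have hZc : Subgroup.center Z = ⊤ := by
    rw [eq_top_iff]
    intro z _
    rw [Subgroup.mem_center_iff]
    intro y
    apply Subtype.ext
    exact Subgroup.mem_center_iff.mp (hZ z.2) y
  have h1 := (hv.comp Z.subtype).expand 1
  have h2 : ∀ χ ∈ irrF Z, ∃ k : ℕ, pr (fun x : Z => θ x) χ = k := fun χ hχ =>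
    abelian_case hZc (hθ.comp Z.subtype) (mem_irrF.mp hχ)
  choose! k hk using h2
  have h3 : ∀ χ ∈ irrF Z, ∃ d : ℕ, 0 < d ∧ χ 1 = d := fun χ hχ => irr_deg_pos (mem_irrF.mp hχ)
  choose! d hd0 hd using h3
  have h4 : (s : ℂ) = ∑ χ ∈ irrF Z, ((k χ * d χ : ℕ) : ℂ) := by
    rw [← hs]
    have h5 : θ ((Z.subtype) 1) = ∑ χ ∈ irrF Z, pr (fun x : Z => θ x) χ * χ 1 := h1
    rw [map_one] at h5
    rw [h5]
    refine Finset.sum_congr rfl fun χ hχ => ?_
    rw [hk χ hχ, hd χ hχ]
    push_cast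
    rfl
  have h4' : s = ∑ χ ∈ irrF Z, k χ * d χ := by exact_mod_cast h4
  let α : Z → ℂ := fun z => ((μ z : ℂˣ) : ℂ)
  let β : Z → ℂ := fun z => ((μ⁻¹ z : ℂˣ) : ℂ)
  have hα : α ∈ irrF Z := mem_irrF.mpr (Pool.Agent.TH820.lin_irr μ)
  have hβ : β ∈ irrF Z := mem_irrF.mpr (Pool.Agent.TH820.lin_irr μ⁻¹)
  have hne : α ≠ β := by
    intro h
    obtain ⟨z, hz⟩ := hμ
    apply hz
    apply Units.ext
    have h5 := congrFun h z
    change ((μ z : ℂˣ) : ℂ) = ((μ⁻¹ z : ℂˣ) : ℂ) at h5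
    rw [h5, MonoidHom.inv_apply, map_inv]
  have hka : (k α : ℂ) = a := by
    rw [← hk α hα, ← ha, lam_eq, pr_eq]
    congr 1
    refine Finset.sum_congr rfl fun z _ => ?_
    change θ z * ((μ z⁻¹ : ℂˣ) : ℂ) = _
    rw [map_inv, one_mul]
  have hkb : (k β : ℂ) = a := by
    rw [← hk β hβ, ← ha, lam_eq, pr_eq]
    congr 1
    rw [← Equiv.sum_comp (Equiv.inv Z)]
    refine Finset.sum_congr rfl fun z _ => ?_
    change θ ((z⁻¹ : Z) : G) * ((μ⁻¹ (z⁻¹)⁻¹ : ℂˣ) : ℂ) = _
    rw [Subgroup.coe_inv, hr, inv_inv, MonoidHom.inv_apply, one_mul]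
  have hka' : k α = a := by exact_mod_cast hka
  have hkb' : k β = a := by exact_mod_cast hkb
  rw [h4', ← Finset.sum_erase_add _ _ hα,
    ← Finset.sum_erase_add _ _ (Finset.mem_erase.mpr ⟨hne.symm, hβ⟩)]
  have h6 : a * 1 ≤ k α * d α := by rw [hka']; exact Nat.mul_le_mul_left _ (hd0 α hα)
  have h7 : a * 1 ≤ k β * d β := by rw [hkb']; exact Nat.mul_le_mul_left _ (hd0 β hβ)
  omega

/-- pushing forward real functions -/
lemma push_real {G : Type} [Group G] [Fintype G] {Q : Type} [Group Q] (π : G →* Q)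
    {θ : G → ℂ} (hr : ∀ g, θ g⁻¹ = θ g) (q : Q) : push π θ q⁻¹ = push π θ q := by
  classical
  unfold push
  congr 1
  rw [← Equiv.sum_comp (Equiv.inv G)]
  refine Finset.sum_congr rfl fun g _ => ?_
  simp only [Equiv.inv_apply, map_inv, inv_inj]
  rw [hr]

end

end Pool.Agent.X21.Ce
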