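import Mathlib
import Pool.Agent.X21.Ce.A10

/-!
# Solvable groups at the central point, continued
-/

set_option autoImplicit false
set_option linter.unusedSectionVars false

namespace Pool.Agent.X21.Ce

open Pool.Agent.H302R2 Pool.Agent.H541R3.ART Pool.Agent.H302R5 Pool.Agent.H302R6
  Pool.Agent.H302R10 Pool.Agent.W446.AS Pool.Agent.X21.Sy Filter Topology

section num

variable {G : Type} [Group G] [Finite G]

lemma cfree_odd {lt : Prop} {r : ℕ} (hodd : Odd (Nat.card G)) (h : Free lt (r / 2) G) :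
    CFree lt r G := by
  rintro H X _ f hf ⟨F, D, hF, hD2, hobs⟩
  have hXfin : Finite X := Finite.of_surjective f hf
  have hXG : Nat.card X ∣ Nat.card G :=
    (Subgroup.card_dvd_of_surjective f hf).trans (Subgroup.card_subgroup_dvd_card H)
  rcases hobs with h1 | ⟨h1, -⟩
  · refine h H X f hf ⟨F, D, hF, hD2, ?_⟩
    rcases h1 with h1 | ⟨h1, h2⟩
    · left; omega
    · right; exact ⟨by omega, h2⟩
  · have h2 : 2 ∣ Nat.card G := by
      rw [← h1]
      exact (Subgroup.card_subgroup_dvd_card _).trans hXG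
    exact (Nat.not_even_iff_odd.mpr hodd) (even_iff_two_dvd.mpr h2)

/-- the prime divisors of the degree of a frame divide the order of the centre -/
lemma prime_dvd_center {X : Type} [Group X] [Finite X] {F : Subgroup X} {D p : ℕ}
    (hF : Frame X F D) (hp : p.Prime) (hpD : p ∣ D) : p ∣ Nat.card (Subgroup.center X) := by
  classical
  have : Fact p.Prime := ⟨hp⟩
  let Z : Subgroup F := (Subgroup.center X).subgroupOf F
  have hZn : Z.Normal := inferInstance
  have hZc : Nat.card Z = Nat.card (Subgroup.center X) :=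
    Nat.card_congr (Subgroup.subgroupOfEquivOfLe hF.le).toEquiv
  have hZpos : 0 < Nat.card Z := Nat.card_pos
  have hq : Nat.card (F ⧸ Z) = D ^ 2 := by
    have h1 := Subgroup.card_eq_card_quotient_mul_card_subgroup Z
    rw [hF.card, ← hZc] at h1
    exact (Nat.eq_of_mul_eq_mul_right hZpos h1).symm
  have h1 : p ∣ Nat.card (F ⧸ Z) := by
    rw [hq]
    exact hpD.trans (dvd_pow_self D (by norm_num))
  obtain ⟨q, hqo⟩ := exists_prime_orderOf_dvd_card' p h1
  obtain ⟨x, rfl⟩ := QuotientGroup.mk'_surjective Z q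
  have hx1 : ((x : X)) ∉ Subgroup.center X := by
    intro h
    have h2 : (QuotientGroup.mk' Z x) = 1 := by
      rw [QuotientGroup.mk'_apply, QuotientGroup.eq_one_iff]
      exact Subgroup.mem_subgroupOf.mpr h
    rw [h2, orderOf_one] at hqo
    exact hp.one_lt.ne hqo
  have hxp : ((x : X)) ^ p ∈ Subgroup.center X := by
    have h2 := pow_orderOf_eq_one (QuotientGroup.mk' Z x)
    rw [hqo, ← map_pow, QuotientGroup.mk'_apply, QuotientGroup.eq_one_iff] at h2
    exact Subgroup.mem_subgroupOf.mp h2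
  obtain ⟨y, hy, hxy⟩ : ∃ y ∈ F, (x : X) * y ≠ y * x := by
    by_contra hcon
    push Not at hcon
    exact hx1 (hF.cent x hcon)
  let z : Subgroup.center X := ⟨(x : X) * y * (x : X)⁻¹ * y⁻¹, hF.comm x x.2 y hy⟩
  have hz1 : z ≠ 1 := by
    intro h
    apply hxy
    have h2 := congrArg Subtype.val h
    change (x : X) * y * (x : X)⁻¹ * y⁻¹ = 1 at h2
    rw [mul_inv_eq_one, mul_inv_eq_iff_eq_mul] at h2
    exact h2
  have hzp : z ^ p = 1 := by
    have hzc : ∀ g : X, (z : X) * g = g * z := fun g => (Subgroup.mem_center_iff.mp z.2 g).symm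
    have h2 : ∀ n : ℕ, ((x : X)) ^ n * y = (z : X) ^ n * (y * (x : X) ^ n) := by
      intro n
      induction n with
      | zero => simp
      | succ n ih =>
        have h3 : (x : X) * y = z * (y * x) := by
          change (x : X) * y = (x : X) * y * (x : X)⁻¹ * y⁻¹ * (y * x)
          group
        calc (x : X) ^ (n + 1) * y = (x : X) ^ n * ((x : X) * y) := by rw [pow_succ, mul_assoc]
          _ = (x : X) ^ n * (z * (y * x)) := by rw [h3]
          _ = z * ((x : X) ^ n * y) * x := by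
              rw [← mul_assoc, ← mul_assoc, ← hzc]
              group
          _ = z * ((z : X) ^ n * (y * (x : X) ^ n)) * x := by rw [ih]
          _ = (z : X) ^ (n + 1) * (y * (x : X) ^ (n + 1)) := by
              rw [pow_succ', pow_succ (x : X)]
              group
    have h3 := h2 p
    have h4 : (x : X) ^ p * y = y * (x : X) ^ p := (Subgroup.mem_center_iff.mp hxp y).symm
    rw [h4] at h3
    have h5 : (z : X) ^ p = 1 := by
      have h6 : (1 : X) * (y * (x : X) ^ p) = (z : X) ^ p * (y * (x : X) ^ p) := by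
        rw [one_mul]; exact h3
      exact (mul_right_cancel h6).symm
    apply Subtype.ext
    rw [Subgroup.coe_pow, h5]
    rfl
  have h6 : orderOf z = p := orderOf_eq_prime hzp hz1
  rw [← h6]
  exact orderOf_dvd_natCard z

/-- order at most thirteen with the two-dimensional case known -/
theorem cfree_thirteen (h32 : ¬ 32 ∣ Nat.card G) (h108 : ¬ 108 ∣ Nat.card G)
    (h375 : ¬ 375 ∣ Nat.card G) : CFree True 13 G := by
  rintro H X _ f hf ⟨F, D, hF, hD2, hobs⟩
  have hXfin : Finite X := Finite.of_surjective f hf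
  have hXG : Nat.card X ∣ Nat.card G :=
    (Subgroup.card_dvd_of_surjective f hf).trans (Subgroup.card_subgroup_dvd_card H)
  have hD2 := hD2 trivial
  have hD := hF.one_lt
  have hdvd : ∀ k m : ℕ, k ∣ F.index → m ∣ Nat.card F → k * m ∣ Nat.card G := by
    intro k m hk hm
    refine dvd_trans ?_ hXG
    rw [← Subgroup.index_mul_card F]
    exact mul_dvd_mul hk hm
  have hfour : 4 ∣ D → False := by
    intro h4
    apply h32
    have h1 : 2 ∣ Nat.card (Subgroup.center X) :=
      prime_dvd_center hF Nat.prime_two ((by norm_num : 2 ∣ 4).trans h4)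
    have h2 : 32 ∣ Nat.card F := by
      rw [hF.card]
      have h3 : 4 ^ 2 ∣ D ^ 2 := pow_dvd_pow_of_dvd h4 2
      have h5 := mul_dvd_mul h3 h1
      norm_num at h5
      exact h5
    have h3 := hdvd 1 32 (one_dvd _) h2
    simpa using h3
  have h3case : D = 3 → False := by
    rintro rfl
    have h1 := (hF.crit_of_prime Nat.prime_three).dvd_card
    exact h108 (hdvd 4 27 (three_index hF) h1)
  rcases hobs with h1 | ⟨h1, h2⟩
  · have hcases : D = 3 ∨ D = 4 ∨ D = 5 ∨ D = 6 := by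
      rcases h1 with h | ⟨h, -⟩ <;> omega
    rcases hcases with h | rfl | rfl | rfl
    · exact h3case h
    · exact hfour (by norm_num)
    · rcases h1 with h | ⟨-, g, hg⟩
      · omega
      · have h1 := hF.crit_of_prime Nat.prime_five
        exact h375 (hdvd 3 125 (five_cyc h1 hg) h1.dvd_card)
    · exact h108 ((six_dvd hF).trans hXG)
  · have h3 : ∀ p : ℕ, p.Prime → p ∣ D → p = 2 := by
      intro p hp hpD
      have h4 := prime_dvd_center hF hp hpD
      rw [h1] at h4
      exact (Nat.prime_dvd_prime_iff_eq hp Nat.prime_two).mp h4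
    have h4 := Nat.eq_prime_pow_of_unique_prime_dvd (n := D) (p := 2) (by omega)
      (fun {d} hd hdD => h3 d hd hdD)
    apply hfour
    have h5 : 2 ≤ D.primeFactorsList.length := by
      by_contra hcon
      push Not at hcon
      interval_cases hl : D.primeFactorsList.length
      · omega
      · omega
    rw [h4]
    exact (by norm_num : (4 : ℕ) = 2 ^ 2) ▸ pow_dvd_pow 2 h5

end num

section

variable {G : Type} [Group G] [Finite G]

/-- the order of the zeta function at the central point is even -/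
theorem even_order (A : CentralData G) {r : ℕ}
    (hr : meromorphicOrderAt (A.Lin ⊥ 1) (1 / 2) = (r : WithTop ℤ)) : Even r := by
  classical
  have h1 : A.th 1 = r := A.toArtinData.theta_one hr
  have h2 : (fun _ : (⊥ : Subgroup G) => (1 : ℂ)) ∈ Irr (⊥ : Subgroup G) := by
    have h3 := Pool.Agent.TH820.lin_irr (1 : (⊥ : Subgroup G) →* ℂˣ)
    simpa using h3
  obtain ⟨k, hk, hk2⟩ := A.even_mult ⊥ h2 (by
    unfold nu
    rw [finsum_unique]
    simp)
  rw [finsum_unique] at hk2
  have h4 : ((default : (⊥ : Subgroup G)) : G) = 1 := rfl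
  rw [h4, h1] at hk2
  have h5 : (r : ℂ) = (k : ℂ) := by simpa using hk2
  have h6 : (r : ℤ) = k := by exact_mod_cast h5
  rw [← Int.even_coe_nat, h6]
  exact hk

/-- **Artin's conjecture at central zeros of small order for solvable groups** -/
theorem central_solvable (lt : Prop) [Group.IsSolvable G] (A : RealData G)
    (hlt : lt → Nonempty (TwoDim A.toArtinData)) {r : ℕ}
    (hr : meromorphicOrderAt (A.Lin ⊥ 1) (1 / 2) = (r : WithTop ℤ)) (hun : CFree lt r G) :
    ∀ χ ∈ Irr G, 0 ≤ meromorphicOrderAt (A.L χ) (1 / 2) := by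
  intro χ hχ
  exact order_nonneg A.toArtinData hχ (fmainC lt r _ G rfl inferInstance hun
    (theta A.toArtinData.ord) A.toArtinData.isHeilbronn (theta_virt _) A.th_inv
    ⟨r, le_rfl, A.toArtinData.theta_one hr⟩ (fun h => (hlt h).elim fun B => B.twoPos) χ hχ)

/-- two-dimensional characters for the halved data -/
theorem double_two (A B : ArtinData G (1 / 2 : ℂ)) (hB : ∀ χ ∈ Irr G,
      meromorphicOrderAt (A.L χ) (1 / 2)
        = meromorphicOrderAt (B.L χ) (1 / 2) + meromorphicOrderAt (B.L χ) (1 / 2))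
    (T : TwoDim A) : Nonempty (TwoDim B) := by
  classical
  have hex : ∀ (H : Subgroup G) (ψ : H → ℂ), ∃ m : (G → ℂ) → ℕ, ψ ∈ Irr H → ∀ χ ∈ Irr G,
      ∑ᶠ h : H, χ h * ψ h⁻¹ = (m χ : ℂ) * (Nat.card H : ℂ) := by
    intro H ψ
    by_cases hψ : ψ ∈ Irr H
    · choose! m hm using fun χ (hχ : χ ∈ Irr G) => exists_mult_irr hχ H hψ
      exact ⟨m, fun _ => hm⟩
    · exact ⟨fun _ => 0, fun h => absurd h hψ⟩
  choose m hm using hex
  have key : ∀ (C : ArtinData G (1 / 2 : ℂ)) (n : (G → ℂ) → ℕ),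
      meromorphicOrderAt (fun s => ∏ᶠ χ ∈ Irr G, C.L χ s ^ n χ) (1 / 2)
        = ((∑ χ ∈ irrF G, (n χ : ℤ) * C.ord χ : ℤ) : WithTop ℤ) := by
    intro C n
    have h3 : (fun s => ∏ᶠ χ ∈ Irr G, C.L χ s ^ n χ)
        = fun s => ∏ χ ∈ irrF G, (C.L χ ^ n χ) s := by
      funext s
      rw [finprod_mem_eq_finite_toFinset_prod _ (irr_finite (G := G))]
      rfl
    rw [h3, meromorphicOrderAt_fun_prod (fun χ hχ => ((C.mero χ (mem_irrF.mp hχ)).1).pow _),
      WithTop.coe_sum]
    refine Finset.sum_congr rfl fun χ hχ => ?_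
    rw [meromorphicOrderAt_pow ((C.mero χ (mem_irrF.mp hχ)).1), ← C.coe_ord (mem_irrF.mp hχ)]
    push_cast
    rfl
  refine ⟨⟨fun H ψ s => ∏ᶠ χ ∈ Irr G, B.L χ s ^ m H ψ χ, fun H ψ hψ h1 => ?_,
    fun H ψ hψ h1 n hn => ?_⟩⟩
  · have h2 := T.holo H ψ hψ h1
    rw [meromorphicOrderAt_congr (T.induce H ψ hψ h1 (m H ψ) (hm H ψ hψ)), key A] at h2
    rw [key B]
    have h3 : ∑ χ ∈ irrF G, (m H ψ χ : ℤ) * A.ord χ
        = 2 * ∑ χ ∈ irrF G, (m H ψ χ : ℤ) * B.ord χ := by
      rw [Finset.mul_sum]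
      refine Finset.sum_congr rfl fun χ hχ => ?_
      have h4 := hB χ (mem_irrF.mp hχ)
      rw [← A.coe_ord (mem_irrF.mp hχ), ← B.coe_ord (mem_irrF.mp hχ), ← WithTop.coe_add] at h4
      have h5 : A.ord χ = B.ord χ + B.ord χ := WithTop.coe_injective h4
      rw [h5]
      ring
    rw [h3] at h2
    have h4 : 0 ≤ 2 * ∑ χ ∈ irrF G, (m H ψ χ : ℤ) * B.ord χ := by exact_mod_cast h2
    have h5 : 0 ≤ ∑ χ ∈ irrF G, (m H ψ χ : ℤ) * B.ord χ := by omega
    exact_mod_cast h5
  · refine Filter.Eventually.of_forall fun s => ?_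
    change ∏ᶠ χ ∈ Irr G, B.L χ s ^ m H ψ χ = ∏ᶠ χ ∈ Irr G, B.L χ s ^ n χ
    refine finprod_mem_congr rfl fun χ hχ => ?_
    have h2 := hm H ψ hψ χ hχ
    rw [hn χ hχ] at h2
    have hH : (Nat.card H : ℂ) ≠ 0 := by exact_mod_cast Nat.card_pos.ne'
    have h3 : (n χ : ℂ) = m H ψ χ := mul_right_cancel₀ hH h2
    have h4 : n χ = m H ψ χ := by exact_mod_cast h3
    rw [h4]

theorem central_solvable_orth (lt : Prop) [Group.IsSolvable G] (hG : TotOrth G) (A : CentralData G)
    (hlt : lt → Nonempty (TwoDim A.toArtinData)) {r : ℕ}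
    (hr : meromorphicOrderAt (A.Lin ⊥ 1) (1 / 2) = (r : WithTop ℤ)) (hun : Free lt (r / 2) G) :
    ∀ χ ∈ Irr G, ∃ k : ℕ, meromorphicOrderAt (A.L χ) (1 / 2) = ((2 * k : ℕ) : WithTop ℤ) := by
  obtain ⟨B, hB1, hB2⟩ := double A hG
  have h1 := hB2 ⊥ 1
  rw [hr] at h1
  obtain ⟨-, h2⟩ := half_order h1 (lin_coe B ⊥ 1).2 (B.hecke ⊥ 1)
  intro χ hχ
  have h3 := artin_solvable lt B (fun h => (hlt h).elim fun T =>
    double_two A.toArtinData B hB1 T) h2 hun χ hχ
  rw [hB1 χ hχ]
  rw [← B.coe_ord hχ] at h3 ⊢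
  have h4 : 0 ≤ B.ord χ := by exact_mod_cast h3
  obtain ⟨k, hk⟩ := Int.eq_ofNat_of_zero_le h4
  refine ⟨k, ?_⟩
  rw [hk, ← WithTop.coe_add]
  have e3 : ∀ a : ℕ, ((a : ℕ) : WithTop ℤ) = (((a : ℕ) : ℤ) : WithTop ℤ) := fun a => rfl
  rw [e3]
  congr 1
  push_cast
  ring

end

end Pool.Agent.X21.Ce
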